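import Mathlib
import Pool.Agent.Results.MP_df3b73_co.InducedGroupProper

set_option autoImplicit false
set_option linter.unusedSectionVars false

/-!
Definitions for the theorem on the groups induced on the conics of proper Mathon `8`-arcs.
The definitions `Conic`, `Conic.form`, `Conic.points`, `Conic.oplus`, `IsMathonFamily`,
`Collineation`, `Collineation.act`, `Induces`, `IsFanoAut` are those of `InducedGroupProper`.
-/

namespace Pool.Agent.Helper47.MA

open scoped LinearAlgebra.Projectivization
open Pool.Agent.Results.MP_df3b73_co.InducedGroupProper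

section defs

variable (K : Type) [Field K]

theorem nucleus_ne : (![0, 0, 1] : Fin 3 → K) ≠ 0 := by
  intro h
  have := congrFun h 2
  simp at this

/-- The common nucleus `F_0 = (0, 0, 1)`. -/
def nucleus : ℙ K (Fin 3 → K) := Projectivization.mk K ![0, 0, 1] (nucleus_ne K)

variable {K}

/-- The points of the conics in `𝒞` together with `F_0`. -/
def arc (𝒞 : Finset (Conic K)) : Set (ℙ K (Fin 3 → K)) :=
  {P | (∃ F ∈ 𝒞, P ∈ F.points) ∨ P = nucleus K}

/-- The points of the conics `F_{α,1,λ}`, `λ ∈ A ∖ {0}`, together with `F_0`. -/
def stdDenniston (α : K) (A : AddSubgroup K) : Set (ℙ K (Fin 3 → K)) :=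
  {P | (∃ lam : K, lam ∈ A ∧ lam ≠ 0 ∧ P ∈ (⟨α, 1, lam⟩ : Conic K).points) ∨ P = nucleus K}

/-- `𝒦` is (a maximal arc of degree `8`) of Denniston type: some collineation maps it onto the union
of the conics `F_{α,1,λ}`, `λ ∈ A ∖ {0}`, and `F_0`, for some `α` with `Tr(α) = 1` and some additive
subgroup `A` of order `8`. -/
def IsDennistonType [Algebra (ZMod 2) K] (𝒦 : Set (ℙ K (Fin 3 → K))) : Prop :=
  ∃ (c : Collineation K) (α : K) (A : AddSubgroup K), Algebra.trace (ZMod 2) K α = 1 ∧
    Nat.card A = 8 ∧ c.act '' 𝒦 = stdDenniston α A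

end defs

section coll

variable {K : Type} [Field K]

/-- The identity collineation. -/
def idC : Collineation K where
  e := Equiv.refl _
  σ := RingEquiv.refl _
  map_add := fun _ _ => rfl
  map_smul := fun _ _ => rfl

/-- The composition of two collineations. -/
def comp (g h : Collineation K) : Collineation K where
  e := h.e.trans g.e
  σ := h.σ.trans g.σ
  map_add := by intro u v; simp [h.map_add, g.map_add]
  map_smul := by intro c v; simp [h.map_smul, g.map_smul]

/-- The inverse of a collineation. -/
def inv (g : Collineation K) : Collineation K where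
  e := g.e.symm
  σ := g.σ.symm
  map_add := by intro u v; apply g.e.injective; simp [g.map_add]
  map_smul := by intro c v; apply g.e.injective; simp [g.map_smul]

theorem id_act (P : ℙ K (Fin 3 → K)) : (idC : Collineation K).act P = P := by
  induction P using Projectivization.ind with | _ v hv =>
  rw [act_mk]
  rfl

theorem comp_act (g h : Collineation K) (P : ℙ K (Fin 3 → K)) :
    (comp g h).act P = g.act (h.act P) := by
  induction P using Projectivization.ind with | _ v hv =>
  rw [act_mk, act_mk, act_mk]
  rfl

theorem inv_act (g : Collineation K) (P : ℙ K (Fin 3 → K)) : (inv g).act (g.act P) = P := by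
  induction P using Projectivization.ind with | _ v hv =>
  rw [act_mk, act_mk]
  congr 1
  exact g.e.symm_apply_apply v

theorem act_inv (g : Collineation K) (P : ℙ K (Fin 3 → K)) : g.act ((inv g).act P) = P := by
  induction P using Projectivization.ind with | _ v hv =>
  rw [act_mk, act_mk]
  congr 1
  exact g.e.apply_symm_apply v

theorem comp_image (g h : Collineation K) (S : Set (ℙ K (Fin 3 → K))) :
    (comp g h).act '' S = g.act '' (h.act '' S) := by
  rw [Set.image_image]
  exact Set.image_congr fun P _ => comp_act g h P

theorem id_image (S : Set (ℙ K (Fin 3 → K))) : (idC : Collineation K).act '' S = S := by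
  rw [Set.image_congr (g := id) fun P _ => id_act P, Set.image_id]

theorem inv_image (g : Collineation K) (S : Set (ℙ K (Fin 3 → K))) :
    (inv g).act '' (g.act '' S) = S := by
  rw [Set.image_image, Set.image_congr (g := id) fun P _ => inv_act g P, Set.image_id]

theorem act_injective (g : Collineation K) : Function.Injective g.act :=
  Function.LeftInverse.injective (inv_act g)

/-- The group induced on the seven conics `p(F)`, `F ∈ 𝒞`, by the stabiliser in `PΓL(3, K)` of the
Mathon arc `p(arc 𝒞)`. -/
def inducedGroup (𝒞 : Finset (Conic K)) (p : Collineation K) : Subgroup (Equiv.Perm 𝒞) where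
  carrier := {π | ∃ g : Collineation K,
    g.act '' (p.act '' arc 𝒞) = p.act '' arc 𝒞 ∧ Induces 𝒞 p g π}
  one_mem' := ⟨idC, id_image _, fun F => id_image _⟩
  mul_mem' := by
    rintro π π' ⟨g, hg1, hg2⟩ ⟨g', hg1', hg2'⟩
    refine ⟨comp g g', ?_, fun F => ?_⟩
    · rw [comp_image, hg1', hg1]
    · rw [comp_image, hg2' F, hg2 (π' F)]
      rfl
  inv_mem' := by
    rintro π ⟨g, hg1, hg2⟩
    refine ⟨inv g, ?_, fun F => ?_⟩
    · conv_lhs => rw [← hg1]
      exact inv_image g _
    · have h1 := hg2 (π⁻¹ F)
      have h2 : π (π⁻¹ F) = F := π.apply_symm_apply F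
      rw [h2] at h1
      rw [← h1]
      exact inv_image g _

end coll

end Pool.Agent.Helper47.MA
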