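import Mathlib
import Pool.Agent.Helper47.MA.Defs

set_option autoImplicit false
set_option linter.unusedSectionVars false

/-! The proof of the theorem on the groups induced on the conics of proper Mathon `8`-arcs. -/

namespace Pool.Agent.Helper47.MA

open scoped LinearAlgebra.Projectivization
open Pool.Agent.Results.MP_df3b73_co.InducedGroupProper

section coll2

variable {K : Type} [Field K]

theorem image_points (c : Collineation K) (F F' : Conic K) (κ : K) (hκ : κ ≠ 0)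
    (h : ∀ v, F'.form (c.e v) = κ * c.σ (F.form v)) : c.act '' F.points = F'.points := by
  ext P
  constructor
  · rintro ⟨Q, hQ, rfl⟩
    induction Q using Projectivization.ind with | _ v hv =>
    rw [mk_mem_points] at hQ
    rw [act_mk, mk_mem_points, h, hQ]
    simp
  · intro hP
    refine ⟨(inv c).act P, ?_, act_inv c P⟩
    induction P using Projectivization.ind with | _ v hv =>
    rw [mk_mem_points] at hP
    rw [act_mk, mk_mem_points]
    have h1 := h (c.e.symm v)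
    rw [Equiv.apply_symm_apply, hP] at h1
    have h2 := (mul_eq_zero.1 h1.symm).resolve_left hκ
    exact c.σ.map_eq_zero_iff.1 h2

theorem act_nucleus (c : Collineation K) (h0 : c.e ![0, 0, 1] 0 = 0) (h1 : c.e ![0, 0, 1] 1 = 0) :
    c.act (nucleus K) = nucleus K := by
  have h2 : c.e ![0, 0, 1] 2 ≠ 0 := by
    intro h2
    apply c.map_ne_zero (nucleus_ne K)
    funext i
    fin_cases i
    · exact h0
    · exact h1
    · exact h2
  rw [nucleus, act_mk, Projectivization.mk_eq_mk_iff]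
  refine ⟨Units.mk0 _ h2, ?_⟩
  funext i
  fin_cases i
  · show c.e ![0, 0, 1] 2 * 0 = c.e ![0, 0, 1] 0
    rw [h0, mul_zero]
  · show c.e ![0, 0, 1] 2 * 0 = c.e ![0, 0, 1] 1
    rw [h1, mul_zero]
  · show c.e ![0, 0, 1] 2 * 1 = c.e ![0, 0, 1] 2
    rw [mul_one]

end coll2

section transfer

variable {K : Type} [Field K] [Fintype K] [CharP K 2]

theorem quartic_zero' (S : Finset K) (hS : 4 < S.card) (a4 a3 a2 a1 a0 : K)
    (h : ∀ X ∈ S, a4 * X ^ 4 + a3 * X ^ 3 + a2 * X ^ 2 + a1 * X + a0 = 0) :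
    a4 = 0 ∧ a3 = 0 ∧ a2 = 0 ∧ a1 = 0 ∧ a0 = 0 := by
  classical
  let P : Polynomial K := Polynomial.C a4 * Polynomial.X ^ 4 + Polynomial.C a3 * Polynomial.X ^ 3 +
    Polynomial.C a2 * Polynomial.X ^ 2 + Polynomial.C a1 * Polynomial.X + Polynomial.C a0
  have hdeg : P.natDegree ≤ 4 := by
    simp only [P]
    compute_degree
  have hP : P = 0 := by
    apply Polynomial.eq_zero_of_natDegree_lt_card_of_eval_eq_zero' P S
    · intro X hX
      simpa [P] using h X hX
    · omega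
  have h4 := congrArg (fun p => Polynomial.coeff p 4) hP
  have h3 := congrArg (fun p => Polynomial.coeff p 3) hP
  have h2 := congrArg (fun p => Polynomial.coeff p 2) hP
  have h1 := congrArg (fun p => Polynomial.coeff p 1) hP
  have h0 := congrArg (fun p => Polynomial.coeff p 0) hP
  simp [P, Polynomial.coeff_X, Polynomial.coeff_C, Polynomial.coeff_X_pow] at h4 h3 h2 h1 h0
  exact ⟨h4, h3, h2, h1, h0⟩

/-- If a collineation `g` maps more than four of the points `(Y², 1, s Y² + t + u Y)` of the conic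
`F` into the conic `F'`, then it transfers the form of `F` to that of `F'`. -/
theorem transfer (g : Collineation K) (F F' : Conic K) (hl' : F'.lam ≠ 0)
    (s t u : K) (hs : F.lam * s ^ 2 = F.α) (ht : F.lam * t ^ 2 = F.β) (hu : F.lam * u ^ 2 = 1)
    (S : Finset K) (hS : 4 < S.card)
    (h : ∀ Y ∈ S, F'.form (g.e ![Y ^ 2, 1, s * Y ^ 2 + t + u * Y]) = 0) :
    polar (g.e ![1, 0, 0]) (g.e ![0, 1, 0]) ≠ 0 ∧ g.e ![0, 0, 1] 0 = 0 ∧ g.e ![0, 0, 1] 1 = 0 ∧
      ∀ v, F'.form (g.e v) = polar (g.e ![1, 0, 0]) (g.e ![0, 1, 0]) * g.σ (F.form v) := by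
  classical
  set m0 := g.e ![1, 0, 0] with hm0
  set m1 := g.e ![0, 1, 0] with hm1
  set m2 := g.e ![0, 0, 1] with hm2
  have hs' : g.σ F.lam * g.σ s ^ 2 = g.σ F.α := by rw [← hs, map_mul, map_pow]
  have ht' : g.σ F.lam * g.σ t ^ 2 = g.σ F.β := by rw [← ht, map_mul, map_pow]
  have hu' : g.σ F.lam * g.σ u ^ 2 = 1 := by rw [← map_pow, ← map_mul, hu, map_one]
  have hu0 : g.σ u ≠ 0 := by
    intro h0
    rw [h0] at hu'
    simp at hu'
  have h2 : (2 : K) = 0 := CharTwo.two_eq_zero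
  have hpoly : ∀ X ∈ S.image g.σ,
      (F'.form m0 + F'.form m2 * g.σ s ^ 2 + polar m0 m2 * g.σ s) * X ^ 4 +
      (polar m0 m2 * g.σ u) * X ^ 3 +
      (F'.form m2 * g.σ u ^ 2 + polar m0 m1 + polar m0 m2 * g.σ t + polar m1 m2 * g.σ s) * X ^ 2 +
      (polar m1 m2 * g.σ u) * X +
      (F'.form m1 + F'.form m2 * g.σ t ^ 2 + polar m1 m2 * g.σ t) = 0 := by
    intro X hX
    rw [Finset.mem_image] at hX
    obtain ⟨Y, hY, rfl⟩ := hX
    have h1 := h Y hY
    rw [apply_eq, form_add, form_add, polar_add_left, polar_smul, polar_smul, polar_smul,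
      form_smul, form_smul, form_smul, ← hm0, ← hm1, ← hm2] at h1
    simp only [_root_.map_add, _root_.map_mul, _root_.map_pow, _root_.map_one] at h1
    linear_combination h1 - (F'.form m2 * (g.σ s * g.σ Y ^ 2 * g.σ t +
      g.σ s * g.σ Y ^ 2 * g.σ u * g.σ Y + g.σ t * g.σ u * g.σ Y)) * h2
  have hcard : 4 < (S.image g.σ).card := by
    rw [Finset.card_image_of_injective _ g.σ.injective]
    exact hS
  obtain ⟨e4, e3, e2, e1, e0⟩ := quartic_zero' _ hcard _ _ _ _ _ hpoly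
  have hB02 : polar m0 m2 = 0 := (mul_eq_zero.1 e3).resolve_right hu0
  have hB12 : polar m1 m2 = 0 := (mul_eq_zero.1 e1).resolve_right hu0
  rw [hB02, zero_mul, add_zero] at e4
  rw [hB12, zero_mul, add_zero] at e0
  rw [hB02, hB12, zero_mul, zero_mul, add_zero, add_zero] at e2
  have hQ : F'.form m2 = polar m0 m1 * g.σ F.lam := by
    linear_combination (g.σ F.lam) * e2 - F'.form m2 * hu' - (polar m0 m1 * g.σ F.lam) * h2
  have hall : ∀ v, F'.form (g.e v) = polar m0 m1 * g.σ (F.form v) := by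
    intro v
    have hv : v = ![v 0, v 1, v 2] := by
      funext i
      fin_cases i <;> rfl
    have hFv : g.σ (F.form v) = g.σ F.α * g.σ (v 0) ^ 2 + g.σ (v 0) * g.σ (v 1) +
        g.σ F.β * g.σ (v 1) ^ 2 + g.σ F.lam * g.σ (v 2) ^ 2 := by
      simp only [Conic.form, _root_.map_add, _root_.map_mul, _root_.map_pow]
    rw [hFv]
    conv_lhs => rw [hv]
    rw [apply_eq, form_add, form_add, polar_add_left, polar_smul, polar_smul, polar_smul,
      form_smul, form_smul, form_smul, ← hm0, ← hm1, ← hm2, hB02, hB12]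
    linear_combination g.σ (v 0) ^ 2 * e4 + g.σ (v 1) ^ 2 * e0 +
      (g.σ (v 2) ^ 2 - g.σ (v 0) ^ 2 * g.σ s ^ 2 - g.σ (v 1) ^ 2 * g.σ t ^ 2) * hQ -
      (polar m0 m1 * g.σ (v 0) ^ 2) * hs' - (polar m0 m1 * g.σ (v 1) ^ 2) * ht' -
      (g.σ (v 0) ^ 2 * polar m0 m1 * g.σ F.α + g.σ (v 1) ^ 2 * polar m0 m1 * g.σ F.β) * h2
  have hc : polar m0 m1 ≠ 0 := by
    intro hc
    obtain ⟨v, hv⟩ := g.e.surjective ![0, 0, 1]
    have h3 := hall v
    rw [hv, hc, zero_mul] at h3
    simp [Conic.form] at h3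
    exact hl' h3
  have hm20 : m2 0 = 0 := by
    have h3 : polar m0 m1 * m2 0 = 0 := by
      have e5 : polar m0 m1 * m2 0 = m0 0 * polar m1 m2 + m1 0 * polar m0 m2 := by
        simp only [polar]
        linear_combination (-(m0 0 * m1 0 * m2 1)) * h2
      rw [e5, hB02, hB12]
      ring
    exact (mul_eq_zero.1 h3).resolve_left hc
  have hm21 : m2 1 = 0 := by
    have h3 : polar m0 m1 * m2 1 = 0 := by
      have e5 : polar m0 m1 * m2 1 = m1 1 * polar m0 m2 + m0 1 * polar m1 m2 := by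
        simp only [polar]
        linear_combination (-(m0 1 * m1 1 * m2 0)) * h2
      rw [e5, hB02, hB12]
      ring
    exact (mul_eq_zero.1 h3).resolve_left hc
  exact ⟨hc, hm20, hm21, hall⟩

theorem exists_param (F : Conic K) (hl : F.lam ≠ 0) :
    ∃ s t u : K, F.lam * s ^ 2 = F.α ∧ F.lam * t ^ 2 = F.β ∧ F.lam * u ^ 2 = 1 := by
  obtain ⟨s, hs⟩ := exists_sqrt (F.α / F.lam)
  obtain ⟨t, ht⟩ := exists_sqrt (F.β / F.lam)
  obtain ⟨u, hu⟩ := exists_sqrt (1 / F.lam)
  refine ⟨s, t, u, ?_, ?_, ?_⟩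
  · rw [hs]; field_simp
  · rw [ht]; field_simp
  · rw [hu]; field_simp

theorem form_param (F : Conic K) (s t u : K) (hs : F.lam * s ^ 2 = F.α)
    (ht : F.lam * t ^ 2 = F.β) (hu : F.lam * u ^ 2 = 1) (Y : K) :
    F.form ![Y ^ 2, 1, s * Y ^ 2 + t + u * Y] = 0 := by
  have h2 : (2 : K) = 0 := CharTwo.two_eq_zero
  rw [form_vec]
  linear_combination Y ^ 4 * hs + ht + Y ^ 2 * hu + (F.α * Y ^ 4 + Y ^ 2 + F.β
    + F.lam * (s * Y ^ 2 * t + s * Y ^ 2 * u * Y + t * u * Y)) * h2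

theorem transfer_all (hK : 4 < Fintype.card K) (g : Collineation K) (F F' : Conic K)
    (hl : F.lam ≠ 0) (hl' : F'.lam ≠ 0) (h : ∀ v, F.form v = 0 → F'.form (g.e v) = 0) :
    polar (g.e ![1, 0, 0]) (g.e ![0, 1, 0]) ≠ 0 ∧ g.e ![0, 0, 1] 0 = 0 ∧ g.e ![0, 0, 1] 1 = 0 ∧
      ∀ v, F'.form (g.e v) = polar (g.e ![1, 0, 0]) (g.e ![0, 1, 0]) * g.σ (F.form v) := by
  obtain ⟨s, t, u, hs, ht, hu⟩ := exists_param F hl
  exact transfer g F F' hl' s t u hs ht hu Finset.univ (by rw [Finset.card_univ]; exact hK)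
    (fun Y _ => h _ (form_param F s t u hs ht hu Y))

end transfer

section disjoint

variable {K : Type} [Field K] [Fintype K] [Algebra (ZMod 2) K]

theorem charTwo : CharP K 2 :=
  charP_of_injective_algebraMap (algebraMap (ZMod 2) K).injective 2

theorem trace_sq (w : K) : Algebra.trace (ZMod 2) K (w ^ 2) = Algebra.trace (ZMod 2) K w := by
  have : CharP K 2 := charTwo
  have hc : Fintype.card (ZMod 2) = 2 := ZMod.card 2
  have h := Algebra.trace_eq_of_algEquiv
    (FiniteField.frobeniusAlgEquivOfAlgebraic (ZMod 2) K) w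
  rw [← h]
  simp [hc]

theorem trace_ringEquiv (σ : K ≃+* K) (w : K) :
    Algebra.trace (ZMod 2) K (σ w) = Algebra.trace (ZMod 2) K w := by
  have hz : ∀ (r : ZMod 2), σ (algebraMap (ZMod 2) K r) = algebraMap (ZMod 2) K r := by
    intro r
    have : r = 0 ∨ r = 1 := by revert r; decide
    rcases this with rfl | rfl <;> simp
  exact Algebra.trace_eq_of_algEquiv (AlgEquiv.ofRingEquiv (f := σ) hz) w

/-- If `Tr(ab) = 1` then `a x² + x y + b y²` is anisotropic. -/
theorem anisotropic (a b : K) (h : Algebra.trace (ZMod 2) K (a * b) = 1) (x y : K)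
    (hxy : a * x ^ 2 + x * y + b * y ^ 2 = 0) : x = 0 ∧ y = 0 := by
  have : CharP K 2 := charTwo
  have h2 : (2 : K) = 0 := CharTwo.two_eq_zero
  by_cases hy : y = 0
  · subst hy
    refine ⟨?_, rfl⟩
    by_contra hx
    have h1 : a * x ^ 2 = 0 := by linear_combination hxy
    have ha : a = 0 := (mul_eq_zero.1 h1).resolve_right (pow_ne_zero 2 hx)
    rw [ha, zero_mul, map_zero] at h
    exact zero_ne_one h
  · exfalso
    have h1 : a * b = (a * (x / y)) ^ 2 + a * (x / y) := by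
      field_simp
      linear_combination a * hxy - (a ^ 2 * x ^ 2 + a * x * y) * h2
    rw [h1, map_add, trace_sq] at h
    have h3 : ∀ c : ZMod 2, c + c ≠ 1 := by decide
    exact h3 _ h

theorem no_common {𝒞 : Finset (Conic K)} (h𝒞 : IsMathonFamily 𝒞) {F F' : Conic K} (hF : F ∈ 𝒞)
    (hF' : F' ∈ 𝒞) (hne : F ≠ F') (v : Fin 3 → K) (h : F.form v = 0) (h' : F'.form v = 0) :
    v = 0 := by
  have : CharP K 2 := charTwo
  have h2 : (2 : K) = 0 := CharTwo.two_eq_zero
  obtain ⟨hl, hmem⟩ := h𝒞.closed F hF F' hF' hne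
  have hs : F.lam + F'.lam ≠ 0 := by
    intro h0
    apply hl
    linear_combination h0 - F'.lam * h2
  set a := (F'.lam * F.α + F.lam * F'.α) / (F.lam + F'.lam) with ha
  set b := (F'.lam * F.β + F.lam * F'.β) / (F.lam + F'.lam) with hb
  have htr : Algebra.trace (ZMod 2) K (a * b) = 1 := by
    have e : a * b = (F.oplus F').α * (F.oplus F').β + F.α * F.β + F'.α * F'.β := by
      simp only [Conic.oplus]
      rw [ha, hb]
      field_simp
      linear_combination (-(F.α * F.β * F.lam ^ 2 + F'.α * F'.β * F'.lam ^ 2 + F.α * F.β * F.lam * F'.lam + F'.α * F'.β * F.lam * F'.lam)) * h2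
    rw [e, map_add, map_add, h𝒞.trace _ hmem, h𝒞.trace _ hF, h𝒞.trace _ hF']
    decide
  have hform : a * v 0 ^ 2 + v 0 * v 1 + b * v 1 ^ 2 = 0 := by
    rw [ha, hb]
    have e : (F'.lam * F.α + F.lam * F'.α) * v 0 ^ 2 + (F.lam + F'.lam) * (v 0 * v 1) +
        (F'.lam * F.β + F.lam * F'.β) * v 1 ^ 2 = 0 := by
      simp only [Conic.form] at h h'
      linear_combination F'.lam * h + F.lam * h' - F.lam * F'.lam * v 2 ^ 2 * h2
    have e2 : (F.lam + F'.lam) * ((F'.lam * F.α + F.lam * F'.α) / (F.lam + F'.lam) * v 0 ^ 2 +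
      v 0 * v 1 + (F'.lam * F.β + F.lam * F'.β) / (F.lam + F'.lam) * v 1 ^ 2) = 0 := by
      rw [← e]
      field_simp
    exact (mul_eq_zero.1 e2).resolve_left hs
  obtain ⟨h0, h1⟩ := anisotropic a b htr _ _ hform
  simp only [Conic.form, h0, h1] at h
  have h3 : F.lam * v 2 ^ 2 = 0 := by linear_combination h
  have h4 := (mul_eq_zero.1 h3).resolve_left (h𝒞.lam_ne F hF)
  have h5 : v 2 = 0 := by simpa using h4
  funext i
  fin_cases i
  · exact h0
  · exact h1
  · exact h5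

end disjoint

section core

variable {K : Type} [Field K] [Fintype K] [Algebra (ZMod 2) K]

theorem oplus_form [CharP K 2] (F F' : Conic K) (hs : F.lam + F'.lam ≠ 0) (v : Fin 3 → K) :
    (F.oplus F').lam * (F.oplus F').form v = F.lam * F.form v + F'.lam * F'.form v := by
  have h2 : (2 : K) = 0 := CharTwo.two_eq_zero
  simp only [Conic.oplus, Conic.form]
  field_simp
  linear_combination (F.lam * F'.lam * v 2 ^ 2) * h2

theorem core {𝒞 : Finset (Conic K)} (h𝒞 : IsMathonFamily 𝒞)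
    (c : Collineation K) (hσ : ∀ x, c.σ x = x) (π : Equiv.Perm 𝒞) (k : K)
    (hk : k ^ 3 = k + 1) (hlam : ∀ F : 𝒞, (π F).1.lam = k * F.1.lam)
    (hform : ∀ (F : 𝒞) v, F.1.form v = 0 → (π F).1.form (c.e v) = 0) :
    ∃ (A0 A1 B0 B1 a : K) (F : ℕ → 𝒞), a ≠ 0 ∧ (∀ i, (F i).1.lam = k ^ i * a) ∧
      (∀ G ∈ 𝒞, ∃ i < 7, G = (F i).1) ∧
      ∀ i, (F i).1.α = A0 + A1 * (F i).1.lam ∧ (F i).1.β = B0 + B1 * (F i).1.lam := by
  have : CharP K 2 := charTwo
  have h2 : (2 : K) = 0 := CharTwo.two_eq_zero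
  have hk0 : k ≠ 0 := by
    rintro rfl
    have : (1 : K) = 0 := by linear_combination -hk
    exact one_ne_zero this
  have hk1 : k ≠ 1 := by
    rintro rfl
    have : (1 : K) = 0 := by linear_combination -hk
    exact one_ne_zero this
  have hk4 : k ^ 4 = k ^ 2 + k := by linear_combination k * hk
  have hk5 : k ^ 5 = k ^ 2 + k + 1 := by linear_combination k ^ 2 * hk + hk
  have hk6 : k ^ 6 = k ^ 2 + 1 := by linear_combination k ^ 3 * hk + hk4 + hk + k * h2
  have hk7 : k ^ 7 = 1 := by linear_combination k * hk6 + hk + k * h2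
  have hord : orderOf k = 7 := by
    have : Fact (Nat.Prime 7) := ⟨by norm_num⟩
    exact orderOf_eq_prime hk7 hk1
  -- a base conic
  have hne : 𝒞.Nonempty := by
    rw [← Finset.card_pos, h𝒞.card]
    norm_num
  obtain ⟨G0, hG0⟩ := hne
  let Fs : ℕ → 𝒞 := fun i => (π ^ i) ⟨G0, hG0⟩
  set a := G0.lam with ha
  have ha0 : a ≠ 0 := h𝒞.lam_ne _ hG0
  have hsucc : ∀ i, Fs (i + 1) = π (Fs i) := by
    intro i
    show (π ^ (i + 1)) _ = π ((π ^ i) _)
    rw [pow_succ', Equiv.Perm.mul_apply]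
  have hFlam : ∀ i, (Fs i).1.lam = k ^ i * a := by
    intro i
    induction i with
    | zero => rw [pow_zero, one_mul]; rfl
    | succ i ih => rw [hsucc, hlam, ih, pow_succ]; ring
  have hlam0 : ∀ i, k ^ i * a ≠ 0 := fun i => mul_ne_zero (pow_ne_zero i hk0) ha0
  have hne1 : ∀ i, (Fs (i + 1)).1 ≠ (Fs i).1 := by
    intro i h
    have h1 := congrArg Conic.lam h
    rw [hFlam, hFlam, pow_succ] at h1
    have h3 : (k - 1) * (k ^ i * a) = 0 := by linear_combination h1
    rcases mul_eq_zero.1 h3 with h4 | h4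
    · exact hk1 (sub_eq_zero.1 h4)
    · exact hlam0 i h4
  have hop : ∀ i, (Fs (i + 3)).1 = (Fs (i + 1)).1.oplus (Fs i).1 := by
    intro i
    have hcl := h𝒞.closed _ (Fs (i + 1)).2 _ (Fs i).2 (hne1 i)
    apply lam_inj h𝒞 (Fs (i + 3)).2 hcl.2
    show _ = (Fs (i + 1)).1.lam + (Fs i).1.lam
    rw [hFlam, hFlam, hFlam]
    linear_combination k ^ i * a * hk
  have hsurj : ∀ G ∈ 𝒞, ∃ i < 7, G = (Fs i).1 := by
    intro G hG
    have hinj : Function.Injective (fun i : Fin 7 => Fs i) := by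
      intro i j hij
      have h1 := congrArg (fun G : 𝒞 => G.1.lam) hij
      simp only [hFlam] at h1
      have h3 : k ^ (i : ℕ) = k ^ (j : ℕ) := mul_right_cancel₀ ha0 h1
      have h4 := pow_injOn_Iio_orderOf (x := k) (by rw [hord]; exact i.2)
        (by rw [hord]; exact j.2) h3
      exact Fin.ext h4
    have hbij : Function.Bijective (fun i : Fin 7 => Fs i) := by
      rw [Fintype.bijective_iff_injective_and_card]
      refine ⟨hinj, ?_⟩
      rw [Fintype.card_fin, Fintype.card_coe, h𝒞.card]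
    obtain ⟨i, hi⟩ := hbij.2 ⟨G, hG⟩
    exact ⟨i, i.2, (congrArg Subtype.val hi).symm⟩
  -- the forms
  let E : ℕ → (Fin 3 → K) → K := fun i v => (Fs i).1.lam * (Fs i).1.form v
  have hEdef : ∀ i v, E i v = (Fs i).1.lam * (Fs i).1.form v := fun _ _ => rfl
  have hEadd : ∀ i v, E (i + 3) v = E (i + 1) v + E i v := by
    intro i v
    rw [hEdef, hop, oplus_form, hEdef, hEdef]
    rw [hFlam, hFlam]
    intro h
    apply hlam0 (i + 3)
    linear_combination h + k ^ i * a * hk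
  set m0 := c.e ![1, 0, 0] with hm0
  set m1 := c.e ![0, 1, 0] with hm1
  set m2 := c.e ![0, 0, 1] with hm2
  set δ := polar m0 m1 with hδ
  have htr : ∀ F : 𝒞, δ ≠ 0 ∧ m2 0 = 0 ∧ m2 1 = 0 ∧
      ∀ v, (π F).1.form (c.e v) = δ * F.1.form v := by
    intro F
    have h := transfer_all (card_big h𝒞) c F.1 (π F).1 (h𝒞.lam_ne _ F.2) (h𝒞.lam_ne _ (π F).2)
      (hform F)
    simp only [hσ] at h
    exact h
  obtain ⟨hδ0, hm20, hm21, -⟩ := htr ⟨G0, hG0⟩
  have hEc : ∀ i v, E (i + 1) (c.e v) = k * δ * E i v := by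
    intro i v
    rw [hEdef, hEdef, hsucc, (htr _).2.2.2, hlam]
    ring
  set t := m2 2 with ht
  have hkt : k * t ^ 2 = δ := by
    have h := (htr ⟨G0, hG0⟩).2.2.2 ![0, 0, 1]
    rw [← hm2, form_vec, Conic.form, hlam, hm20, hm21] at h
    have h3 : (k * t ^ 2 - δ) * a = 0 := by
      rw [ha]
      linear_combination h
    exact sub_eq_zero.1 ((mul_eq_zero.1 h3).resolve_right ha0)
  have ht0 : t ≠ 0 := by
    intro h
    apply hδ0
    rw [← hkt, h]
    ring
  have hδe : δ = m0 0 * m1 1 + m0 1 * m1 0 := rfl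
  -- coefficients
  let f : ℕ → K := fun i => (Fs i).1.lam * (Fs i).1.α
  let g : ℕ → K := fun i => (Fs i).1.lam * (Fs i).1.β
  have hEv : ∀ i v, E i v = f i * v 0 ^ 2 + k ^ i * a * (v 0 * v 1) + g i * v 1 ^ 2 +
      (k ^ i * a) ^ 2 * v 2 ^ 2 := by
    intro i v
    show (Fs i).1.lam * (Fs i).1.form v = (Fs i).1.lam * (Fs i).1.α * _ + _ +
      (Fs i).1.lam * (Fs i).1.β * _ + _
    rw [Conic.form, hFlam]
    ring
  have hfadd : ∀ i, f (i + 3) = f (i + 1) + f i := by
    intro i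
    have h := hEadd i ![1, 0, 0]
    rw [hEv, hEv, hEv] at h
    simpa using h
  have hgadd : ∀ i, g (i + 3) = g (i + 1) + g i := by
    intro i
    have h := hEadd i ![0, 1, 0]
    rw [hEv, hEv, hEv] at h
    simpa using h
  obtain ⟨r, hr⟩ := exists_sqrt (f 0 + k * f 1 + k ^ 4 * f 2)
  obtain ⟨s, hs⟩ := exists_sqrt (g 0 + k * g 1 + k ^ 4 * g 2)
  have c1 : ∀ v, (r * v 0 + s * v 1) ^ 2 = E 0 v + k * E 1 v + k ^ 4 * E 2 v := by
    intro v
    rw [hEv, hEv, hEv]
    have e126 : 1 + k ^ 2 + k ^ 6 = 0 := by linear_combination hk6 + (1 + k ^ 2) * h2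
    have e1512 : 1 + k ^ 3 + k ^ 8 = 0 := by linear_combination hk + k * hk7 + (1 + k) * h2
    linear_combination v 0 ^ 2 * hr + v 1 ^ 2 * hs + r * s * v 0 * v 1 * h2 -
      a * (v 0 * v 1) * e126 - a ^ 2 * v 2 ^ 2 * e1512
  have c2 : ∀ v, E 0 (c.e v) + k * E 1 (c.e v) + k ^ 4 * E 2 (c.e v) =
      k ^ 4 * δ * (E 0 v + k * E 1 v + k ^ 4 * E 2 v) := by
    intro v
    have e1 := hEc 0 v
    have e2 := hEc 1 v
    have e3 := hEc 2 v
    have e4 := hEadd 0 (c.e v)
    norm_num at e1 e2 e3 e4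
    linear_combination e3 - e4 - e1 + k * e1 + k ^ 4 * e2 - k * δ * E 2 v * hk7 -
      δ * E 0 v * hk4 - k * δ * E 0 v * h2
  have c3 : ∀ v, r * c.e v 0 + s * c.e v 1 = k ^ 6 * t * (r * v 0 + s * v 1) := by
    intro v
    have h : (r * c.e v 0 + s * c.e v 1) ^ 2 = (k ^ 6 * t * (r * v 0 + s * v 1)) ^ 2 := by
      rw [mul_pow, c1, c2, c1, ← hkt]
      linear_combination -(k ^ 5 * t ^ 2 * (E 0 v + k * E 1 v + k ^ 4 * E 2 v)) * hk7
    have h4 : (r * c.e v 0 + s * c.e v 1 - k ^ 6 * t * (r * v 0 + s * v 1)) ^ 2 = 0 := by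
      linear_combination h - (r * c.e v 0 + s * c.e v 1) * (k ^ 6 * t * (r * v 0 + s * v 1)) * h2 +
        (k ^ 6 * t * (r * v 0 + s * v 1)) ^ 2 * h2
    exact sub_eq_zero.1 (pow_eq_zero_iff (two_ne_zero) |>.1 h4)
  have c30 : r * m0 0 + s * m0 1 = k ^ 6 * t * r := by
    have h := c3 ![1, 0, 0]
    rw [← hm0] at h
    simpa using h
  have c31 : r * m1 0 + s * m1 1 = k ^ 6 * t * s := by
    have h := c3 ![0, 1, 0]
    rw [← hm1] at h
    simpa using h
  have c4 : ∀ v, E 0 v + k ^ 2 * E 1 v + k * E 2 v =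
      (f 0 + k ^ 2 * f 1 + k * f 2) * v 0 ^ 2 + a * (v 0 * v 1) +
        (g 0 + k ^ 2 * g 1 + k * g 2) * v 1 ^ 2 := by
    intro v
    rw [hEv, hEv, hEv]
    linear_combination a * (v 0 * v 1) * k ^ 3 * h2 +
      a ^ 2 * v 2 ^ 2 * (hk4 + hk5 + (1 + k + k ^ 2) * h2)
  have c5 : ∀ v, E 0 (c.e v) + k ^ 2 * E 1 (c.e v) + k * E 2 (c.e v) =
      δ * (E 0 v + k ^ 2 * E 1 v + k * E 2 v) := by
    intro v
    have e1 := hEc 0 v
    have e2 := hEc 1 v
    have e3 := hEc 2 v
    have e4 := hEadd 0 (c.e v)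
    norm_num at e1 e2 e3 e4
    linear_combination e3 - e4 - e1 + k ^ 2 * e1 + k * e2 + δ * E 0 v * hk
  have c6 : ∀ v, E 0 v + k ^ 4 * E 1 v + k ^ 2 * E 2 v =
      (f 0 + k ^ 4 * f 1 + k ^ 2 * f 2) * v 0 ^ 2 +
        (g 0 + k ^ 4 * g 1 + k ^ 2 * g 2) * v 1 ^ 2 + a ^ 2 * v 2 ^ 2 := by
    intro v
    rw [hEv, hEv, hEv]
    linear_combination a * (v 0 * v 1) * (hk4 + hk5 + (1 + k + k ^ 2) * h2) +
      a ^ 2 * v 2 ^ 2 * k ^ 6 * h2
  have hrs : r = 0 ∧ s = 0 := by
    obtain ⟨z, hz⟩ := exists_sqrt (((f 0 + k ^ 4 * f 1 + k ^ 2 * f 2) * s ^ 2 +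
        (g 0 + k ^ 4 * g 1 + k ^ 2 * g 2) * r ^ 2) / a ^ 2)
    have hz' : a ^ 2 * z ^ 2 = (f 0 + k ^ 4 * f 1 + k ^ 2 * f 2) * s ^ 2 +
        (g 0 + k ^ 4 * g 1 + k ^ 2 * g 2) * r ^ 2 := by
      rw [hz]
      field_simp
    set w : Fin 3 → K := ![s, r, z] with hw
    have hw0 : w 0 = s := rfl
    have hw1 : w 1 = r := rfl
    have hw2 : w 2 = z := rfl
    have hcw : c.e w = s • m0 + r • m1 + z • m2 := by
      rw [hw, apply_eq, hσ, hσ, hσ]
    have hcw0 : c.e w 0 = s * m0 0 + r * m1 0 := by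
      rw [hcw]
      simp [hm20]
    have hcw1 : c.e w 1 = s * m0 1 + r * m1 1 := by
      rw [hcw]
      simp [hm21]
    have q0 : c.e w 0 = k ^ 2 * t * s := by
      rw [hcw0]
      have h : k ^ 6 * t * (s * m0 0 + r * m1 0) = s * δ := by
        rw [hδe]
        linear_combination -(m0 0) * c31 - m1 0 * c30 + r * m0 0 * m1 0 * h2
      apply mul_left_cancel₀ (mul_ne_zero (pow_ne_zero 6 hk0) ht0)
      linear_combination h - s * hkt - s * k * t ^ 2 * hk7
    have q1 : c.e w 1 = k ^ 2 * t * r := by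
      rw [hcw1]
      have h : k ^ 6 * t * (s * m0 1 + r * m1 1) = r * δ := by
        rw [hδe]
        linear_combination -(m0 1) * c31 - m1 1 * c30 + s * m0 1 * m1 1 * h2
      apply mul_left_cancel₀ (mul_ne_zero (pow_ne_zero 6 hk0) ht0)
      linear_combination h - r * hkt - r * k * t ^ 2 * hk7
    have x0 : E 0 w + k ^ 2 * E 1 w + k * E 2 w = 0 := by
      have h := c5 w
      rw [c4, c4, q0, q1, hw0, hw1, ← hkt] at h
      rw [c4, hw0, hw1]
      have h5 : (k ^ 2 * t ^ 2) * ((f 0 + k ^ 2 * f 1 + k * f 2) * s ^ 2 + a * (s * r) +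
        (g 0 + k ^ 2 * g 1 + k * g 2) * r ^ 2) = 0 := by
        linear_combination h - t ^ 2 * ((f 0 + k ^ 2 * f 1 + k * f 2) * s ^ 2 + a * (s * r) +
          (g 0 + k ^ 2 * g 1 + k * g 2) * r ^ 2) * hk4
      exact (mul_eq_zero.1 h5).resolve_left (mul_ne_zero (pow_ne_zero 2 hk0) (pow_ne_zero 2 ht0))
    have x1 : E 0 w + k ^ 4 * E 1 w + k ^ 2 * E 2 w = 0 := by
      rw [c6, hw0, hw1, hw2, hz']
      linear_combination ((f 0 + k ^ 4 * f 1 + k ^ 2 * f 2) * s ^ 2 +
        (g 0 + k ^ 4 * g 1 + k ^ 2 * g 2) * r ^ 2) * h2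
    have x2 : E 0 w + k * E 1 w + k ^ 4 * E 2 w = 0 := by
      rw [← c1, hw0, hw1]
      linear_combination (2 * r ^ 2 * s ^ 2) * h2
    have y0 : E 0 w = 0 := by
      linear_combination x0 + x1 + x2 - E 0 w * h2 -
        (E 1 w + E 2 w) * (hk4 + (k ^ 2 + k) * h2)
    have y1 : E 1 w = 0 := by
      linear_combination k * x0 + k ^ 2 * x1 + k ^ 4 * x2 - E 0 w * (hk4 + (k ^ 2 + k) * h2) -
        E 1 w * (hk + hk5 + hk6 + (1 + k + k ^ 2) * h2) -
        E 2 w * (hk4 + k * hk7 + (k ^ 2 + k) * h2)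
    have hw' : w = 0 := by
      apply no_common h𝒞 (Fs 1).2 (Fs 0).2 (hne1 0)
      · exact (mul_eq_zero.1 y1).resolve_left (h𝒞.lam_ne _ (Fs 1).2)
      · exact (mul_eq_zero.1 y0).resolve_left (h𝒞.lam_ne _ (Fs 0).2)
    exact ⟨congrFun hw' 1, congrFun hw' 0⟩
  obtain ⟨rfl, rfl⟩ := hrs
  have hp2 : f 0 + k * f 1 + k ^ 4 * f 2 = 0 := by rw [← hr]; ring
  have hq2 : g 0 + k * g 1 + k ^ 4 * g 2 = 0 := by rw [← hs]; ring
  refine ⟨(f 0 + k ^ 2 * f 1 + k * f 2) / a, (f 0 + k ^ 4 * f 1 + k ^ 2 * f 2) / a ^ 2,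
    (g 0 + k ^ 2 * g 1 + k * g 2) / a, (g 0 + k ^ 4 * g 1 + k ^ 2 * g 2) / a ^ 2, a, Fs,
    ha0, hFlam, hsurj, ?_⟩
  -- the general induction
  have hind : ∀ (u : ℕ → K), (∀ i, u (i + 3) = u (i + 1) + u i) →
      u 0 + k * u 1 + k ^ 4 * u 2 = 0 →
      ∀ i, u i = (u 0 + k ^ 2 * u 1 + k * u 2) * k ^ i +
        (u 0 + k ^ 4 * u 1 + k ^ 2 * u 2) * k ^ (2 * i) := by
    intro u hadd h0
    have hall : ∀ i, (u i = (u 0 + k ^ 2 * u 1 + k * u 2) * k ^ i +
        (u 0 + k ^ 4 * u 1 + k ^ 2 * u 2) * k ^ (2 * i)) ∧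
        (u (i + 1) = (u 0 + k ^ 2 * u 1 + k * u 2) * k ^ (i + 1) +
        (u 0 + k ^ 4 * u 1 + k ^ 2 * u 2) * k ^ (2 * (i + 1))) ∧
        (u (i + 2) = (u 0 + k ^ 2 * u 1 + k * u 2) * k ^ (i + 2) +
        (u 0 + k ^ 4 * u 1 + k ^ 2 * u 2) * k ^ (2 * (i + 2))) := by
      intro i
      induction i with
      | zero =>
        refine ⟨?_, ?_, ?_⟩
        · linear_combination h0 - u 0 * h2 - (u 1 + u 2) * (hk4 + (k ^ 2 + k) * h2)
        · linear_combination k ^ 4 * h0 - u 0 * (hk4 + (k ^ 2 + k) * h2) -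
            u 1 * (hk + hk5 + hk6 + (1 + k + k ^ 2) * h2) -
            u 2 * (hk4 + k * hk7 + (k ^ 2 + k) * h2)
        · linear_combination k ^ 8 * h0 - u 0 * (hk4 + k * hk7 + (k ^ 2 + k) * h2) -
            u 1 * (hk4 + k * hk7 + k ^ 2 * hk7 + (k ^ 2 + k) * h2) -
            u 2 * (hk + hk6 + k ^ 5 * hk7 + hk5 + (1 + k + k ^ 2) * h2)
      | succ i ih =>
        obtain ⟨i1, i2, i3⟩ := ih
        refine ⟨i2, i3, ?_⟩
        have e : i + 1 + 2 = i + 3 := rfl
        rw [e, hadd, i1, i2]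
        linear_combination -((u 0 + k ^ 2 * u 1 + k * u 2) * k ^ i) * hk -
          ((u 0 + k ^ 4 * u 1 + k ^ 2 * u 2) * k ^ (2 * i)) * hk6
    exact fun i => (hall i).1
  intro i
  constructor
  · have h : (Fs i).1.lam * (Fs i).1.α = _ := hind f hfadd hp2 i
    apply mul_left_cancel₀ (h𝒞.lam_ne _ (Fs i).2)
    rw [h, hFlam]
    field_simp
    ring
  · have h : (Fs i).1.lam * (Fs i).1.β = _ := hind g hgadd hq2 i
    apply mul_left_cancel₀ (h𝒞.lam_ne _ (Fs i).2)
    rw [h, hFlam]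
    field_simp
    ring

end core

section denniston

variable {K : Type} [Field K] [Fintype K] [Algebra (ZMod 2) K]

theorem denniston_image (c : Collineation K) (S : Set (ℙ K (Fin 3 → K)))
    (h : IsDennistonType S) : IsDennistonType (c.act '' S) := by
  obtain ⟨d, α, A, h1, h2, h3⟩ := h
  refine ⟨comp d (inv c), α, A, h1, h2, ?_⟩
  rw [comp_image, inv_image, h3]

theorem trace_linear {𝒞 : Finset (Conic K)} (h𝒞 : IsMathonFamily 𝒞) (k : K)
    (hk : k ^ 3 = k + 1) (A0 A1 B0 B1 a : K) (F : ℕ → 𝒞)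
    (hlam : ∀ i, (F i).1.lam = k ^ i * a)
    (hab : ∀ i, (F i).1.α = A0 + A1 * (F i).1.lam ∧ (F i).1.β = B0 + B1 * (F i).1.lam) :
    Algebra.trace (ZMod 2) K (A0 * B0) = 1 := by
  have : CharP K 2 := charTwo
  have h2 : (2 : K) = 0 := CharTwo.two_eq_zero
  have hk4 : k ^ 4 = k ^ 2 + k := by linear_combination k * hk
  have hk5 : k ^ 5 = k ^ 2 + k + 1 := by linear_combination k ^ 2 * hk + hk
  have hk6 : k ^ 6 = k ^ 2 + 1 := by linear_combination k ^ 3 * hk + hk4 + hk + k * h2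
  have hk7 : k ^ 7 = 1 := by linear_combination k * hk6 + hk + k * h2
  have hs1 : 1 + k + k ^ 2 + k ^ 3 + k ^ 4 + k ^ 5 + k ^ 6 = 0 := by
    linear_combination hk + hk4 + hk5 + hk6 + (2 + 2 * k + 2 * k ^ 2) * h2
  have hs2 : 1 + k ^ 2 + k ^ 4 + k ^ 6 + k ^ 8 + k ^ 10 + k ^ 12 = 0 := by
    linear_combination hs1 + (k + k ^ 3 + k ^ 5) * hk7
  have e : A0 * B0 = ∑ i ∈ Finset.range 7, (F i).1.α * (F i).1.β := by
    simp only [Finset.sum_range_succ, Finset.sum_range_zero, (hab _).1, (hab _).2, hlam]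
    linear_combination -(A0 * B1 + A1 * B0) * a * hs1 - A1 * B1 * a ^ 2 * hs2 -
      3 * A0 * B0 * h2
  rw [e, map_sum]
  simp only [h𝒞.trace _ (F _).2, Finset.sum_const, Finset.card_range]
  decide

theorem denniston_of_linear {𝒞 : Finset (Conic K)} (h𝒞 : IsMathonFamily 𝒞) (k : K)
    (hk : k ^ 3 = k + 1) (A0 A1 B0 B1 a : K) (F : ℕ → 𝒞)
    (hlam : ∀ i, (F i).1.lam = k ^ i * a) (hsurj : ∀ G ∈ 𝒞, ∃ i < 7, G = (F i).1)
    (hab : ∀ i, (F i).1.α = A0 + A1 * (F i).1.lam ∧ (F i).1.β = B0 + B1 * (F i).1.lam) :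
    IsDennistonType (arc 𝒞) := by
  have : CharP K 2 := charTwo
  have h2 : (2 : K) = 0 := CharTwo.two_eq_zero
  have htr := trace_linear h𝒞 k hk A0 A1 B0 B1 a F hlam hab
  have hB0 : B0 ≠ 0 := by
    rintro rfl
    rw [mul_zero, map_zero] at htr
    exact zero_ne_one htr
  have hab' : ∀ G ∈ 𝒞, G.α = A0 + A1 * G.lam ∧ G.β = B0 + B1 * G.lam := by
    intro G hG
    obtain ⟨i, -, rfl⟩ := hsurj G hG
    exact hab i
  obtain ⟨s, hs⟩ := exists_sqrt A1
  obtain ⟨t, ht⟩ := exists_sqrt B1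
  let c : Collineation K :=
    { e :=
      { toFun := fun v => ![B0⁻¹ * v 0, v 1, v 2 + s * v 0 + t * v 1]
        invFun := fun v => ![B0 * v 0, v 1, v 2 - s * (B0 * v 0) - t * v 1]
        left_inv := by
          intro v
          funext i
          fin_cases i
          · show B0 * (B0⁻¹ * v 0) = v 0
            field_simp
          · rfl
          · show v 2 + s * v 0 + t * v 1 - s * (B0 * (B0⁻¹ * v 0)) - t * v 1 = v 2
            field_simp
            ring
        right_inv := by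
          intro v
          funext i
          fin_cases i
          · show B0⁻¹ * (B0 * v 0) = v 0
            field_simp
          · rfl
          · show v 2 - s * (B0 * v 0) - t * v 1 + s * (B0 * v 0) + t * v 1 = v 2
            ring }
      σ := RingEquiv.refl K
      map_add := by
        intro u v
        funext i
        fin_cases i
        · show B0⁻¹ * (u 0 + v 0) = B0⁻¹ * u 0 + B0⁻¹ * v 0
          ring
        · rfl
        · show u 2 + v 2 + s * (u 0 + v 0) + t * (u 1 + v 1) =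
            u 2 + s * u 0 + t * u 1 + (v 2 + s * v 0 + t * v 1)
          ring
      map_smul := by
        intro d v
        funext i
        fin_cases i
        · show B0⁻¹ * (d * v 0) = d * (B0⁻¹ * v 0)
          ring
        · rfl
        · show d * v 2 + s * (d * v 0) + t * (d * v 1) = d * (v 2 + s * v 0 + t * v 1)
          ring }
  have hce : ∀ v, c.e v = ![B0⁻¹ * v 0, v 1, v 2 + s * v 0 + t * v 1] := fun _ => rfl
  have hcσ : ∀ x, c.σ x = x := fun _ => rfl
  have himg : ∀ G ∈ 𝒞, c.act '' G.points =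
      (⟨A0 * B0, 1, B0⁻¹ * G.lam⟩ : Conic K).points := by
    intro G hG
    apply image_points c G _ B0⁻¹ (inv_ne_zero hB0)
    intro v
    rw [hce, hcσ, form_vec, Conic.form, (hab' G hG).1, (hab' G hG).2]
    show A0 * B0 * (B0⁻¹ * v 0) ^ 2 + B0⁻¹ * v 0 * v 1 + 1 * v 1 ^ 2 +
      B0⁻¹ * G.lam * (v 2 + s * v 0 + t * v 1) ^ 2 = _
    field_simp
    linear_combination G.lam * v 0 ^ 2 * hs + G.lam * v 1 ^ 2 * ht +
      G.lam * (s * v 0 * t * v 1 + s * v 0 * v 2 + t * v 1 * v 2) * h2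
  have hnuc : c.act (nucleus K) = nucleus K := by
    apply act_nucleus
    · show B0⁻¹ * 0 = 0
      ring
    · rfl
  let f : K →+ K := AddMonoidHom.mulLeft B0⁻¹
  have hf : Function.Injective f := fun x y h => mul_left_cancel₀ (inv_ne_zero hB0) h
  refine ⟨c, A0 * B0, (lamGroup h𝒞).toAddSubgroup.map f, htr, ?_, ?_⟩
  · rw [← card_lamGroup h𝒞]
    exact (Nat.card_congr (AddSubgroup.equivMapOfInjective _ f hf).toEquiv).symm
  · ext P
    constructor
    · rintro ⟨Q, hQ | hQ, rfl⟩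
      · obtain ⟨G, hG, hQ⟩ := hQ
        left
        refine ⟨B0⁻¹ * G.lam, ⟨G.lam, Or.inr ⟨G, hG, rfl⟩, rfl⟩,
          mul_ne_zero (inv_ne_zero hB0) (h𝒞.lam_ne G hG), ?_⟩
        rw [← himg G hG]
        exact ⟨Q, hQ, rfl⟩
      · right
        rw [hQ, hnuc]
    · rintro (⟨l, hl, hl0, hP⟩ | hP)
      · obtain ⟨l', hl', rfl⟩ := hl
        rcases hl' with rfl | ⟨G, hG, rfl⟩
        · exact absurd (map_zero f) hl0
        · have hP' : P ∈ (⟨A0 * B0, 1, B0⁻¹ * G.lam⟩ : Conic K).points := hP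
          rw [← himg G hG] at hP'
          obtain ⟨Q, hQ, rfl⟩ := hP'
          exact ⟨Q, Or.inl ⟨G, hG, hQ⟩, rfl⟩
      · exact ⟨nucleus K, Or.inr rfl, by rw [hnuc, hP]⟩

end denniston

section upper

variable {K : Type} [Field K] [Fintype K] [Algebra (ZMod 2) K]

theorem induces_inv {𝒞 : Finset (Conic K)} {p g : Collineation K} {π : Equiv.Perm 𝒞}
    (h : Induces 𝒞 p g π) : Induces 𝒞 p (inv g) π⁻¹ := by
  intro F
  have h1 := h (π⁻¹ F)
  have h2 : π (π⁻¹ F) = F := π.apply_symm_apply F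
  rw [h2] at h1
  rw [← h1]
  exact inv_image g _

/-- A *linear* collineation stabilising a proper Mathon arc fixes every conic. -/
theorem eq_one_of_linear {𝒞 : Finset (Conic K)} (h𝒞 : IsMathonFamily 𝒞) (p g : Collineation K)
    (π : Equiv.Perm 𝒞) (hI : Induces 𝒞 p g π) (hσ : ∀ x, g.σ x = x)
    (hprop : ¬ IsDennistonType (p.act '' arc 𝒞)) : π = 1 := by
  have : CharP K 2 := charTwo
  have h2 : (2 : K) = 0 := CharTwo.two_eq_zero
  by_contra hne
  obtain ⟨k, hk0, hmain⟩ := main_lemma (card_big h𝒞) (conj p g)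
  have hcσ : ∀ x, (conj p g).σ x = x := by
    intro x
    show p.σ.symm (g.σ (p.σ x)) = x
    rw [hσ, RingEquiv.symm_apply_apply]
  have hlam : ∀ F : 𝒞, (π F).1.lam = k * F.1.lam := by
    intro F
    have h := hmain F.1 (π F).1 (h𝒞.lam_ne _ F.2) (h𝒞.lam_ne _ (π F).2)
      (fun v hv => form_iff hI F v hv)
    rw [hcσ] at h
    exact h
  have hk1 : k ≠ 1 := by
    rintro rfl
    apply hne
    ext1 F
    have h := hlam F
    rw [one_mul] at h
    exact Subtype.ext (lam_inj h𝒞 (π F).2 F.2 h)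
  have hk7 : k ^ 7 = 1 := by
    have h1 : ∏ F : 𝒞, (π F).1.lam = ∏ F : 𝒞, F.1.lam := Equiv.prod_comp π (fun F => F.1.lam)
    simp only [hlam] at h1
    rw [Finset.prod_mul_distrib, Finset.prod_const, Finset.card_univ, Fintype.card_coe,
      h𝒞.card] at h1
    have h3 : ∏ F : 𝒞, F.1.lam ≠ 0 := Finset.prod_ne_zero_iff.2 fun F _ => h𝒞.lam_ne _ F.2
    exact mul_right_cancel₀ h3 (h1.trans (one_mul _).symm)
  have hsum : 1 + k + k ^ 2 + k ^ 3 + k ^ 4 + k ^ 5 + k ^ 6 = 0 := by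
    have h3 : (k - 1) * (1 + k + k ^ 2 + k ^ 3 + k ^ 4 + k ^ 5 + k ^ 6) = 0 := by
      linear_combination hk7
    exact (mul_eq_zero.1 h3).resolve_left (sub_ne_zero.2 hk1)
  have hfac : (k ^ 3 + k + 1) * (k ^ 3 + k ^ 2 + 1) = 0 := by
    linear_combination hsum + k ^ 3 * h2
  have main : ∀ (g : Collineation K) (π : Equiv.Perm 𝒞) (k : K), Induces 𝒞 p g π →
      (∀ x, g.σ x = x) → (∀ F : 𝒞, (π F).1.lam = k * F.1.lam) → k ^ 3 = k + 1 → False := by
    intro g π k hI hσ hlam hk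
    have hcσ : ∀ x, (conj p g).σ x = x := by
      intro x
      show p.σ.symm (g.σ (p.σ x)) = x
      rw [hσ, RingEquiv.symm_apply_apply]
    obtain ⟨A0, A1, B0, B1, a, F, -, hF1, hF2, hF3⟩ := core h𝒞 (conj p g) hcσ π k hk hlam
      (fun F v hv => form_iff hI F v hv)
    exact hprop (denniston_image p _ (denniston_of_linear h𝒞 k hk A0 A1 B0 B1 a F hF1 hF2 hF3))
  rcases mul_eq_zero.1 hfac with h | h
  · exact main g π k hI hσ hlam (by linear_combination h - (k + 1) * h2)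
  · refine main (inv g) π⁻¹ k⁻¹ (induces_inv hI) ?_ ?_ ?_
    · intro x
      show g.σ.symm x = x
      rw [RingEquiv.symm_apply_eq, hσ]
    · intro F
      have h3 := hlam (π⁻¹ F)
      have h4 : π (π⁻¹ F) = F := π.apply_symm_apply F
      rw [h4] at h3
      rw [h3]
      field_simp
    · field_simp
      linear_combination -h + 1 * h2

/-- The pairs (companion automorphism, induced permutation). -/
def pairGroup (𝒞 : Finset (Conic K)) (p : Collineation K) :
    Subgroup ((K ≃ₐ[ZMod 2] K) × Equiv.Perm 𝒞) where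
  carrier := {x | ∃ g : Collineation K,
    g.act '' (p.act '' arc 𝒞) = p.act '' arc 𝒞 ∧ Induces 𝒞 p g x.2 ∧ ∀ y, g.σ y = x.1 y}
  one_mem' := ⟨idC, id_image _, fun F => id_image _, fun _ => rfl⟩
  mul_mem' := by
    rintro ⟨s, π⟩ ⟨s', π'⟩ ⟨g, hg1, hg2, hg3⟩ ⟨g', hg1', hg2', hg3'⟩
    refine ⟨comp g g', ?_, fun F => ?_, fun y => ?_⟩
    · rw [comp_image, hg1', hg1]
    · have e1 := hg2' F
      have e2 := hg2 (π' F)
      rw [comp_image]
      exact (congrArg (fun S => g.act '' S) e1).trans e2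
    · show g.σ (g'.σ y) = s (s' y)
      rw [hg3', hg3]
  inv_mem' := by
    rintro ⟨s, π⟩ ⟨g, hg1, hg2, hg3⟩
    refine ⟨inv g, ?_, induces_inv hg2, fun y => ?_⟩
    · conv_lhs => rw [← hg1]
      exact inv_image g _
    · show g.σ.symm y = s.symm y
      rw [RingEquiv.symm_apply_eq, hg3]
      exact (s.apply_symm_apply y).symm

theorem cyclic_and_dvd {𝒞 : Finset (Conic K)} (h𝒞 : IsMathonFamily 𝒞) (p : Collineation K)
    (hprop : ¬ IsDennistonType (p.act '' arc 𝒞)) :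
    IsCyclic (inducedGroup 𝒞 p) ∧
      Nat.card (inducedGroup 𝒞 p) ∣ Module.finrank (ZMod 2) K := by
  have hfin : Finite (K ≃ₐ[ZMod 2] K) := inferInstance
  let φ1 : pairGroup 𝒞 p →* (K ≃ₐ[ZMod 2] K) :=
    (MonoidHom.fst _ _).comp (pairGroup 𝒞 p).subtype
  have hφ1 : Function.Injective φ1 := by
    rw [injective_iff_map_eq_one]
    rintro ⟨⟨s, π⟩, g, hg1, hg2, hg3⟩ h
    have hs : s = 1 := h
    subst hs
    have hπ : π = 1 := eq_one_of_linear h𝒞 p g π hg2 (fun x => hg3 x) hprop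
    subst hπ
    rfl
  let φ2 : pairGroup 𝒞 p →* inducedGroup 𝒞 p :=
    { toFun := fun x => ⟨x.1.2, by
        obtain ⟨g, hg1, hg2, -⟩ := x.2
        exact ⟨g, hg1, hg2⟩⟩
      map_one' := rfl
      map_mul' := fun _ _ => rfl }
  have hφ2 : Function.Surjective φ2 := by
    rintro ⟨π, g, hg1, hg2⟩
    have hz : ∀ (r : ZMod 2), g.σ (algebraMap (ZMod 2) K r) = algebraMap (ZMod 2) K r := by
      intro r
      have : r = 0 ∨ r = 1 := by revert r; decide
      rcases this with rfl | rfl <;> simp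
    exact ⟨⟨(AlgEquiv.ofRingEquiv (f := g.σ) hz, π), g, hg1, hg2, fun _ => rfl⟩, rfl⟩
  have hcyc : IsCyclic (pairGroup 𝒞 p) := isCyclic_of_injective φ1 hφ1
  refine ⟨isCyclic_of_surjective φ2 hφ2, ?_⟩
  rw [← IsGalois.card_aut_eq_finrank (ZMod 2) K]
  exact (Subgroup.card_dvd_of_surjective φ2 hφ2).trans (Subgroup.card_dvd_of_injective φ1 hφ1)

theorem isFanoAut_of_mem {𝒞 : Finset (Conic K)} (h𝒞 : IsMathonFamily 𝒞) (p : Collineation K)
    (π : Equiv.Perm 𝒞) (hπ : π ∈ inducedGroup 𝒞 p) : IsFanoAut 𝒞 π := by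
  obtain ⟨g, -, hI⟩ := hπ
  obtain ⟨k, σ, hk, hlam⟩ := induced_form h𝒞 p g π hI
  intro F F' F'' hne hF''
  have hne' : (π F).1 ≠ (π F').1 := fun h => hne (π.injective (Subtype.ext h))
  apply lam_inj h𝒞 (π F'').2 (h𝒞.closed _ (π F).2 _ (π F').2 hne').2
  show _ = (π F).1.lam + (π F').1.lam
  rw [hlam, hlam, hlam, hF'']
  show k * σ (F.1.lam + F'.1.lam) = _
  rw [map_add, mul_add]

theorem pow_eq_one {𝒞 : Finset (Conic K)} (h𝒞 : IsMathonFamily 𝒞) (p : Collineation K)
    (π : Equiv.Perm 𝒞) (hπ : π ∈ inducedGroup 𝒞 p) : π ^ 3 = 1 ∨ π ^ 4 = 1 ∨ π ^ 7 = 1 := by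
  have : CharP K 2 := charTwo
  have h2 : (2 : K) = 0 := CharTwo.two_eq_zero
  obtain ⟨g, -, hI⟩ := hπ
  obtain ⟨k, σ, hk, hlam⟩ := induced_form h𝒞 p g π hI
  have hcard : Fintype.card (ZMod 2) = 2 := ZMod.card 2
  have : Fintype (lamGroup h𝒞) := Fintype.ofFinite _
  have hfr : Module.finrank (ZMod 2) (lamGroup h𝒞) = 3 := by
    have h1 := Module.card_eq_pow_finrank (K := ZMod 2) (V := lamGroup h𝒞)
    rw [← Nat.card_eq_fintype_card, card_lamGroup, hcard] at h1
    have h2 : (2 : ℕ) ^ 3 = 2 ^ Module.finrank (ZMod 2) (lamGroup h𝒞) := by rw [← h1]; norm_num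
    exact (Nat.pow_right_injective le_rfl h2).symm
  let φ : lamGroup h𝒞 →ₗ[ZMod 2] lamGroup h𝒞 :=
    { toFun := fun a => ⟨k * σ (a : K), by
        rcases a.2 with h | ⟨F, hF, h⟩
        · left
          rw [h, map_zero, mul_zero]
        · right
          refine ⟨(π ⟨F, hF⟩).1, (π ⟨F, hF⟩).2, ?_⟩
          rw [hlam, ← h]⟩
      map_add' := by
        intro a b
        apply Subtype.ext
        show k * σ ((a : K) + b) = k * σ a + k * σ b
        rw [map_add, mul_add]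
      map_smul' := by
        intro c a
        have : c = 0 ∨ c = 1 := by revert c; decide
        rcases this with rfl | rfl
        · apply Subtype.ext
          rw [zero_smul]
          show k * σ 0 = (((0 : ZMod 2) • (⟨k * σ (a : K), _⟩ : lamGroup h𝒞) : lamGroup h𝒞) : K)
          rw [zero_smul, map_zero, mul_zero]
          rfl
        · rw [one_smul]
          exact (one_smul _ _).symm }
  have hφ : ∀ a, ((φ a : lamGroup h𝒞) : K) = k * σ (a : K) := fun _ => rfl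
  have hinj : Function.Injective φ := by
    intro a b hab
    have h := congrArg (fun x : lamGroup h𝒞 => (x : K)) hab
    simp only [hφ] at h
    exact Subtype.ext (σ.injective (mul_left_cancel₀ hk h))
  have hdet : φ.charpoly.coeff 0 = 1 := by
    have h1 : LinearMap.det φ ≠ 0 := by
      intro h0
      have hker := LinearMap.bot_lt_ker_of_det_eq_zero h0
      rw [LinearMap.ker_eq_bot.2 hinj] at hker
      exact lt_irrefl _ hker
    rw [LinearMap.det_eq_sign_charpoly_coeff] at h1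
    have h3 : φ.charpoly.coeff 0 ≠ 0 := right_ne_zero_of_mul h1
    revert h3
    generalize φ.charpoly.coeff 0 = c
    revert c
    decide
  have hnd : φ.charpoly.natDegree = 3 := by rw [LinearMap.charpoly_natDegree, hfr]
  have hc3 : φ.charpoly.coeff 3 = 1 := by
    have h1 := φ.charpoly_monic
    rw [Polynomial.Monic, Polynomial.leadingCoeff, hnd] at h1
    exact h1
  have hCH := φ.aeval_self_charpoly
  rw [Polynomial.aeval_eq_sum_range, hnd] at hCH
  simp only [Finset.sum_range_succ, Finset.sum_range_zero, hdet, hc3, pow_zero, pow_one,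
    zero_add, one_smul] at hCH
  set b1 := φ.charpoly.coeff 1
  set b2 := φ.charpoly.coeff 2
  -- the recursion
  have hrec : ∀ a : lamGroup h𝒞, ∀ i : ℕ, (φ ^ (i + 3)) a = (φ ^ i) a + b1 • (φ ^ (i + 1)) a +
      b2 • (φ ^ (i + 2)) a := by
    intro a i
    have h := LinearMap.congr_fun hCH ((φ ^ i) a)
    simp only [LinearMap.add_apply, LinearMap.smul_apply, LinearMap.zero_apply,
      Module.End.one_apply] at h
    have e1 : φ ((φ ^ i) a) = (φ ^ (i + 1)) a := by rw [pow_succ']; rfl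
    have e2 : (φ ^ 2) ((φ ^ i) a) = (φ ^ (i + 2)) a := by
      rw [add_comm i 2, pow_add]; rfl
    have e3 : (φ ^ 3) ((φ ^ i) a) = (φ ^ (i + 3)) a := by
      rw [add_comm i 3, pow_add]; rfl
    rw [e1, e2, e3] at h
    have hneg : ∀ x : lamGroup h𝒞, -x = x := by
      intro x
      apply Subtype.ext
      exact CharTwo.neg_eq _
    have h3 := eq_neg_of_add_eq_zero_right h
    rw [hneg] at h3
    exact h3
  have hiter : ∀ (i : ℕ) (F : 𝒞), ∀ ha : F.1.lam ∈ lamGroup h𝒞,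
      (((φ ^ i) ⟨F.1.lam, ha⟩ : lamGroup h𝒞) : K) = ((π ^ i) F).1.lam := by
    intro i
    induction i with
    | zero => intro F ha; rfl
    | succ i ih =>
      intro F ha
      rw [pow_succ', pow_succ']
      show k * σ (((φ ^ i) ⟨F.1.lam, ha⟩ : lamGroup h𝒞) : K) = (π ((π ^ i) F)).1.lam
      rw [ih, hlam]
  have hfinish : ∀ n : ℕ, (∀ a : lamGroup h𝒞, (φ ^ n) a = a) → π ^ n = 1 := by
    intro n hn
    ext1 F
    apply Subtype.ext
    have ha : F.1.lam ∈ lamGroup h𝒞 := Or.inr ⟨F.1, F.2, rfl⟩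
    apply lam_inj h𝒞 ((π ^ n) F).2 F.2
    rw [← hiter n F ha, hn]
  have hrecK : ∀ (c1 c2 : K), (c1 = algebraMap (ZMod 2) K b1) → (c2 = algebraMap (ZMod 2) K b2) →
      ∀ a : lamGroup h𝒞, ∀ i : ℕ, (((φ ^ (i + 3)) a : lamGroup h𝒞) : K) =
      ((φ ^ i) a : lamGroup h𝒞) + c1 * ((φ ^ (i + 1)) a : lamGroup h𝒞) +
      c2 * ((φ ^ (i + 2)) a : lamGroup h𝒞) := by
    rintro _ _ rfl rfl a i
    have h := congrArg (fun x : lamGroup h𝒞 => (x : K)) (hrec a i)
    simp only [Submodule.coe_add, Submodule.coe_smul, Algebra.smul_def] at h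
    exact h
  have hb : ∀ b : ZMod 2, b = 0 ∨ b = 1 := by decide
  rcases hb b1 with h1 | h1 <;> rcases hb b2 with h3 | h3
  · left
    apply hfinish
    intro a
    have hr := hrecK 0 0 (by rw [h1, map_zero]) (by rw [h3, map_zero]) a
    apply Subtype.ext
    have e0 : _ = (a : K) + _ + _ := hr 0
    linear_combination e0
  · right; right
    apply hfinish
    intro a
    have hr := hrecK 0 1 (by rw [h1, map_zero]) (by rw [h3, map_one]) a
    apply Subtype.ext
    have e0 : _ = (a : K) + _ + _ := hr 0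
    linear_combination hr 4 + hr 3 + hr 2 + e0 + (((φ ^ 2) a : lamGroup h𝒞) +
      ((φ ^ 4) a : lamGroup h𝒞) : K) * h2
  · right; right
    apply hfinish
    intro a
    have hr := hrecK 1 0 (by rw [h1, map_one]) (by rw [h3, map_zero]) a
    apply Subtype.ext
    have e0 : _ = (a : K) + _ + _ := hr 0
    linear_combination hr 4 + hr 1 + hr 2 + e0 + (((φ ^ 1) a : lamGroup h𝒞) +
      ((φ ^ 2) a : lamGroup h𝒞) : K) * h2
  · right; left
    apply hfinish
    intro a
    have hr := hrecK 1 1 (by rw [h1, map_one]) (by rw [h3, map_one]) a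
    apply Subtype.ext
    have e0 : _ = (a : K) + _ + _ := hr 0
    linear_combination hr 1 + e0 + (((φ ^ 1) a : lamGroup h𝒞) +
      ((φ ^ 2) a : lamGroup h𝒞) : K) * h2

theorem card_mem {𝒞 : Finset (Conic K)} (h𝒞 : IsMathonFamily 𝒞) (p : Collineation K)
    (hcyc : IsCyclic (inducedGroup 𝒞 p)) :
    Nat.card (inducedGroup 𝒞 p) ∈ ({1, 2, 3, 4, 7} : Finset ℕ) := by
  obtain ⟨⟨π, hπ⟩, hgen⟩ := hcyc.exists_generator
  rw [← orderOf_eq_card_of_forall_mem_zpowers hgen, Subgroup.orderOf_mk]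
  rcases pow_eq_one h𝒞 p π hπ with h | h | h
  · have h1 := orderOf_dvd_of_pow_eq_one h
    have h3 : orderOf π ≤ 3 := Nat.le_of_dvd (by norm_num) h1
    interval_cases orderOf π <;> simp_all
  · have h1 := orderOf_dvd_of_pow_eq_one h
    have h3 : orderOf π ≤ 4 := Nat.le_of_dvd (by norm_num) h1
    interval_cases orderOf π <;> simp_all
  · have h1 := orderOf_dvd_of_pow_eq_one h
    rcases (Nat.dvd_prime (by norm_num)).1 h1 with h3 | h3 <;> rw [h3] <;> decide

end upper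

section lower

variable {K : Type} [Field K] [Fintype K] [Algebra (ZMod 2) K]

/-- In a Mathon family of Denniston type (as a point set) the parameter `α` is an affine function
of `λ`. -/
theorem linear_of_denniston {𝒞 : Finset (Conic K)} (h𝒞 : IsMathonFamily 𝒞)
    (hK : 32 < Fintype.card K) (h : IsDennistonType (arc 𝒞)) :
    ∃ c1 c2 : K, ∀ F ∈ 𝒞, F.α = c1 + c2 * F.lam := by
  classical
  have : CharP K 2 := charTwo
  have h2 : (2 : K) = 0 := CharTwo.two_eq_zero
  obtain ⟨c, α, A, -, hA, hc⟩ := h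
  have key : ∀ F ∈ 𝒞, ∃ l : K, l ≠ 0 ∧ polar (c.e ![1, 0, 0]) (c.e ![0, 1, 0]) ≠ 0 ∧
      c.e ![0, 0, 1] 0 = 0 ∧ c.e ![0, 0, 1] 1 = 0 ∧
      ∀ v, (⟨α, 1, l⟩ : Conic K).form (c.e v) =
        polar (c.e ![1, 0, 0]) (c.e ![0, 1, 0]) * c.σ (F.form v) := by
    intro F hF
    obtain ⟨s, t, u, hs, ht, hu⟩ := exists_param F (h𝒞.lam_ne F hF)
    have hv : ∀ Y : K, (![Y ^ 2, 1, s * Y ^ 2 + t + u * Y] : Fin 3 → K) ≠ 0 := by
      intro Y h0
      have := congrFun h0 1
      simp at this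
    let P : K → ℙ K (Fin 3 → K) := fun Y => Projectivization.mk K _ (hv Y)
    have hPinj : Function.Injective P := by
      intro Y Y' hY
      have h1 : Projectivization.mk K _ (hv Y) = Projectivization.mk K _ (hv Y') := hY
      rw [Projectivization.mk_eq_mk_iff'] at h1
      obtain ⟨a, ha⟩ := h1
      have e1 := congrFun ha 1
      have e0 := congrFun ha 0
      simp at e1 e0
      rw [e1, one_mul] at e0
      have h3 : (Y - Y') ^ 2 = 0 := by
        linear_combination -e0 + (Y' ^ 2 - Y * Y') * h2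
      exact sub_eq_zero.1 ((pow_eq_zero_iff two_ne_zero).1 h3)
    have hex : ∀ Y, ∃ l : A, ((l : K) = 0 → c.act (P Y) = nucleus K) ∧
        ((l : K) ≠ 0 → (⟨α, 1, l⟩ : Conic K).form
          (c.e ![Y ^ 2, 1, s * Y ^ 2 + t + u * Y]) = 0) := by
      intro Y
      have h1 : c.act (P Y) ∈ c.act '' arc 𝒞 :=
        ⟨P Y, Or.inl ⟨F, hF, (mk_mem_points _ _ _).2 (form_param F s t u hs ht hu Y)⟩, rfl⟩
      rw [hc] at h1
      rcases h1 with ⟨l, hl, hl0, hP⟩ | hP
      · refine ⟨⟨l, hl⟩, fun h0 => absurd h0 hl0, fun _ => ?_⟩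
        have h3 : c.act (Projectivization.mk K _ (hv Y)) ∈ (⟨α, 1, l⟩ : Conic K).points := hP
        rw [act_mk, mk_mem_points] at h3
        exact h3
      · exact ⟨0, fun _ => hP, fun h0 => absurd rfl h0⟩
    choose φ hφ0 hφ1 using hex
    have : Fintype A := Fintype.ofFinite _
    have hAc : Fintype.card A = 8 := by rw [← Nat.card_eq_fintype_card, hA]
    obtain ⟨l, hl⟩ := Fintype.exists_lt_card_fiber_of_mul_lt_card φ (n := 4)
      (by rw [hAc]; exact hK)
    have hl0 : (l : K) ≠ 0 := by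
      intro h0
      obtain ⟨Y, hY, Y', hY', hne⟩ := Finset.one_lt_card.1 (lt_trans (by norm_num) hl)
      rw [Finset.mem_filter] at hY hY'
      apply hne
      apply hPinj
      apply act_injective c
      rw [hφ0 Y (by rw [hY.2, h0]), hφ0 Y' (by rw [hY'.2, h0])]
    refine ⟨l, hl0, transfer c F ⟨α, 1, l⟩ hl0 s t u hs ht hu _ hl ?_⟩
    intro Y hY
    rw [Finset.mem_filter] at hY
    have h3 := hφ1 Y (by rw [hY.2]; exact hl0)
    rw [hY.2] at h3
    exact h3
  set m0 := c.e ![1, 0, 0] with hm0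
  set m1 := c.e ![0, 1, 0] with hm1
  set m2 := c.e ![0, 0, 1] with hm2
  set δ := polar m0 m1 with hδ
  refine ⟨c.σ.symm ((α * m0 0 ^ 2 + m0 0 * m0 1 + m0 1 ^ 2) / δ),
    c.σ.symm (m0 2 ^ 2 / m2 2 ^ 2), ?_⟩
  intro F hF
  obtain ⟨l, hl0, hδ0, hm20, hm21, hform⟩ := key F hF
  have e0 := hform ![1, 0, 0]
  have e2 := hform ![0, 0, 1]
  rw [← hm0, form_vec] at e0
  rw [← hm2, form_vec] at e2
  simp only [Conic.form, hm20, hm21] at e0 e2
  have e0' : α * m0 0 ^ 2 + m0 0 * m0 1 + 1 * m0 1 ^ 2 + l * m0 2 ^ 2 = δ * c.σ F.α := by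
    rw [e0]
    congr 2
    ring
  have e2' : l * m2 2 ^ 2 = δ * c.σ F.lam := by
    have : (F.α * 0 ^ 2 + 0 * 0 + F.β * 0 ^ 2 + F.lam * 1 ^ 2 : K) = F.lam := by ring
    rw [this] at e2
    rw [← e2]
    ring
  have ht0 : m2 2 ≠ 0 := by
    intro h0
    rw [h0] at e2'
    have h3 : δ * c.σ F.lam = 0 := by rw [← e2']; ring
    rcases mul_eq_zero.1 h3 with h4 | h4
    · exact hδ0 h4
    · exact h𝒞.lam_ne F hF (c.σ.map_eq_zero_iff.1 h4)
  apply c.σ.injective
  rw [map_add, map_mul, RingEquiv.apply_symm_apply, RingEquiv.apply_symm_apply]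
  apply mul_left_cancel₀ hδ0
  apply mul_left_cancel₀ (pow_ne_zero 2 ht0)
  field_simp
  linear_combination -(m2 2 ^ 2) * e0' + m0 2 ^ 2 * e2'

end lower

section family

variable {K : Type} [Field K] [Fintype K] [Algebra (ZMod 2) K]

/-- `ε₀ x + ε₁ σ x + ε₂ σ² x`. -/
def ell (σ : K ≃+* K) (x : K) (ε : Fin 3 → ZMod 2) : K :=
  algebraMap (ZMod 2) K (ε 0) * x + algebraMap (ZMod 2) K (ε 1) * σ x +
    algebraMap (ZMod 2) K (ε 2) * σ (σ x)

/-- The companion map of `X³ + X + 1`. -/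
def shift (ε : Fin 3 → ZMod 2) : Fin 3 → ZMod 2 := ![ε 2, ε 0 + ε 2, ε 1]

theorem ell_add (σ : K ≃+* K) (x : K) (ε ε' : Fin 3 → ZMod 2) :
    ell σ x (ε + ε') = ell σ x ε + ell σ x ε' := by
  simp only [ell, Pi.add_apply, map_add]
  ring

theorem map_algebraMap (σ : K ≃+* K) (r : ZMod 2) :
    σ (algebraMap (ZMod 2) K r) = algebraMap (ZMod 2) K r := by
  have : r = 0 ∨ r = 1 := by revert r; decide
  rcases this with rfl | rfl <;> simp

theorem ell_shift (σ : K ≃+* K) (x : K) (hx : σ (σ (σ x)) = σ x + x) (ε : Fin 3 → ZMod 2) :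
    ell σ x (shift ε) = σ (ell σ x ε) := by
  simp only [ell, map_add, map_mul, map_algebraMap, hx]
  show algebraMap (ZMod 2) K (ε 2) * x + algebraMap (ZMod 2) K (ε 0 + ε 2) * σ x +
    algebraMap (ZMod 2) K (ε 1) * σ (σ x) = _
  rw [map_add]
  ring

theorem shift_trans : ∀ ε : Fin 3 → ZMod 2, ε ≠ 0 → ∃ i : Fin 7, ε = shift^[i] ![1, 0, 0] := by
  decide

theorem ell_base (σ : K ≃+* K) (x : K) : ell σ x ![1, 0, 0] = x := by
  simp [ell]

theorem ell_iter (σ : K ≃+* K) (x : K) (hx : σ (σ (σ x)) = σ x + x) (i : ℕ) :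
    ell σ x (shift^[i] ![1, 0, 0]) = σ^[i] x := by
  induction i with
  | zero => exact ell_base σ x
  | succ i ih => rw [Function.iterate_succ_apply', Function.iterate_succ_apply', ell_shift σ x hx, ih]

/-- The conics of the family. -/
def famConic (σ : K ≃+* K) (p q l : K) (ε : Fin 3 → ZMod 2) : Conic K :=
  ⟨ell σ p ε / ell σ l ε, ell σ q ε / ell σ l ε, ell σ l ε⟩

open Classical in
/-- The family of conics. -/
noncomputable def fam (σ : K ≃+* K) (p q l : K) : Finset (Conic K) :=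
  (Finset.univ.filter fun ε : Fin 3 → ZMod 2 => ε ≠ 0).image (famConic σ p q l)

variable (σ : K ≃+* K) (p q l : K)

theorem iter_ne_zero {l : K} (hl0 : l ≠ 0) (i : ℕ) : σ^[i] l ≠ 0 := by
  induction i with
  | zero => exact hl0
  | succ i ih =>
    rw [Function.iterate_succ_apply']
    exact fun h => ih (σ.map_eq_zero_iff.1 h)

theorem ell_ne_zero {l : K} (hl : σ (σ (σ l)) = σ l + l) (hl0 : l ≠ 0) (ε : Fin 3 → ZMod 2)
    (hε : ε ≠ 0) : ell σ l ε ≠ 0 := by
  obtain ⟨i, hi⟩ := shift_trans ε hε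
  rw [hi, ell_iter σ l hl]
  exact iter_ne_zero σ hl0 i

theorem add_ne_zero' {ε ε' : Fin 3 → ZMod 2} (h : ε ≠ ε') : ε + ε' ≠ 0 := by
  intro h0
  apply h
  funext i
  have h1 := congrFun h0 i
  have h2 : ∀ a b : ZMod 2, a + b = 0 → a = b := by decide
  exact h2 _ _ h1

theorem ell_inj {l : K} (hl : σ (σ (σ l)) = σ l + l) (hl0 : l ≠ 0) {ε ε' : Fin 3 → ZMod 2}
    (h : ell σ l ε = ell σ l ε') : ε = ε' := by
  by_contra hne
  have : CharP K 2 := charTwo
  apply ell_ne_zero σ hl hl0 _ (add_ne_zero' hne)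
  rw [ell_add, h]
  exact CharTwo.add_self_eq_zero _

theorem isMathon_fam (hp : σ (σ (σ p)) = σ p + p) (hq : σ (σ (σ q)) = σ q + q)
    (hl : σ (σ (σ l)) = σ l + l) (hl0 : l ≠ 0)
    (htr : Algebra.trace (ZMod 2) K (p * q / l ^ 2) = 1) : IsMathonFamily (fam σ p q l) := by
  classical
  have hmem : ∀ F, F ∈ fam σ p q l ↔ ∃ ε : Fin 3 → ZMod 2, ε ≠ 0 ∧ famConic σ p q l ε = F := by
    intro F
    simp [fam]
  refine ⟨?_, ?_, ?_, ?_⟩
  · intro F hF
    obtain ⟨ε, hε, rfl⟩ := (hmem F).1 hF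
    obtain ⟨i, hi⟩ := shift_trans ε hε
    show Algebra.trace (ZMod 2) K (ell σ p ε / ell σ l ε * (ell σ q ε / ell σ l ε)) = 1
    rw [hi, ell_iter σ l hl, ell_iter σ p hp, ell_iter σ q hq]
    have h1 : ∀ i : ℕ, σ^[i] p / σ^[i] l * (σ^[i] q / σ^[i] l) = σ^[i] (p * q / l ^ 2) := by
      intro i
      induction i with
      | zero =>
        show p / l * (q / l) = p * q / l ^ 2
        field_simp
      | succ i ih =>
        simp only [Function.iterate_succ_apply'] at ih ⊢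
        rw [← ih]
        simp only [map_mul, map_div₀]
    have h3 : ∀ (i : ℕ) (x : K), Algebra.trace (ZMod 2) K (σ^[i] x) =
        Algebra.trace (ZMod 2) K x := by
      intro i x
      induction i with
      | zero => rfl
      | succ i ih => rw [Function.iterate_succ_apply', trace_ringEquiv, ih]
    rw [h1, h3, htr]
  · intro F hF
    obtain ⟨ε, hε, rfl⟩ := (hmem F).1 hF
    exact ell_ne_zero σ hl hl0 ε hε
  · intro F hF F' hF' hne
    obtain ⟨ε, hε, rfl⟩ := (hmem F).1 hF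
    obtain ⟨ε', hε', rfl⟩ := (hmem F').1 hF'
    have hne' : ε ≠ ε' := fun h => hne (by rw [h])
    refine ⟨fun h => hne' (ell_inj σ hl hl0 h), ?_⟩
    rw [hmem]
    refine ⟨ε + ε', add_ne_zero' hne', ?_⟩
    have e1 := ell_ne_zero σ hl hl0 ε hε
    have e2 := ell_ne_zero σ hl hl0 ε' hε'
    have e3 := ell_ne_zero σ hl hl0 _ (add_ne_zero' hne')
    rw [ell_add] at e3
    simp only [famConic, Conic.oplus, ell_add]
    congr 1 <;> field_simp
  · rw [fam, Finset.card_image_of_injOn]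
    · decide
    · intro ε _ ε' _ h
      exact ell_inj σ hl hl0 (congrArg Conic.lam h)

/-- Coordinatewise application of `σ`. -/
def coordC : Collineation K where
  e := Equiv.piCongrRight fun _ => σ.toEquiv
  σ := σ
  map_add := by
    intro u v
    funext i
    exact map_add σ (u i) (v i)
  map_smul := by
    intro c v
    funext i
    exact map_mul σ c (v i)

/-- The conjugate conic. -/
def conjConic (F : Conic K) : Conic K := ⟨σ F.α, σ F.β, σ F.lam⟩

theorem coord_points (F : Conic K) : (coordC σ).act '' F.points = (conjConic σ F).points := by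
  apply image_points _ _ _ 1 one_ne_zero
  intro v
  show σ F.α * σ (v 0) ^ 2 + σ (v 0) * σ (v 1) + σ F.β * σ (v 1) ^ 2 + σ F.lam * σ (v 2) ^ 2 =
    1 * σ (F.form v)
  simp only [Conic.form, map_add, map_mul, map_pow, one_mul]

theorem coord_nucleus : (coordC σ).act (nucleus K) = nucleus K :=
  act_nucleus _ (map_zero σ) (map_zero σ)

theorem conj_famConic (hp : σ (σ (σ p)) = σ p + p) (hq : σ (σ (σ q)) = σ q + q)
    (hl : σ (σ (σ l)) = σ l + l) (ε : Fin 3 → ZMod 2) :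
    conjConic σ (famConic σ p q l ε) = famConic σ p q l (shift ε) := by
  simp only [conjConic, famConic, ell_shift σ p hp, ell_shift σ q hq, ell_shift σ l hl, map_div₀]

theorem order_seven (hp : σ (σ (σ p)) = σ p + p) (hq : σ (σ (σ q)) = σ q + q)
    (hl : σ (σ (σ l)) = σ l + l) (hl0 : l ≠ 0) (hσ7 : ∀ x, σ^[7] x = x) :
    7 ∣ Nat.card (inducedGroup (fam σ p q l) idC) := by
  classical
  have : CharP K 2 := charTwo
  have hmem : ∀ F, F ∈ fam σ p q l ↔ ∃ ε : Fin 3 → ZMod 2, ε ≠ 0 ∧ famConic σ p q l ε = F := by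
    intro F
    simp [fam]
  have hshift0 : ∀ ε : Fin 3 → ZMod 2, ε ≠ 0 → shift ε ≠ 0 := by decide
  have hconj : ∀ F ∈ fam σ p q l, conjConic σ F ∈ fam σ p q l := by
    intro F hF
    obtain ⟨ε, hε, rfl⟩ := (hmem F).1 hF
    rw [hmem, conj_famConic σ p q l hp hq hl]
    exact ⟨shift ε, hshift0 ε hε, rfl⟩
  let f : fam σ p q l → fam σ p q l := fun F => ⟨conjConic σ F.1, hconj F.1 F.2⟩
  have hf : Function.Injective f := by
    intro F F' h
    have h1 : conjConic σ F.1 = conjConic σ F'.1 := congrArg Subtype.val h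
    apply Subtype.ext
    ext
    · exact σ.injective (congrArg Conic.α h1)
    · exact σ.injective (congrArg Conic.β h1)
    · exact σ.injective (congrArg Conic.lam h1)
  let π : Equiv.Perm (fam σ p q l) := Equiv.ofBijective f (Finite.injective_iff_bijective.1 hf)
  have hπ : ∀ F, (π F).1 = conjConic σ F.1 := fun _ => rfl
  have hind : Induces (fam σ p q l) idC (coordC σ) π := by
    intro F
    rw [id_image, id_image, hπ, coord_points]
  have hstab : (coordC σ).act '' ((idC : Collineation K).act '' arc (fam σ p q l)) =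
      (idC : Collineation K).act '' arc (fam σ p q l) := by
    rw [id_image]
    ext P
    constructor
    · rintro ⟨Q, ⟨F, hF, hQ⟩ | hQ, rfl⟩
      · left
        refine ⟨conjConic σ F, hconj F hF, ?_⟩
        rw [← coord_points]
        exact ⟨Q, hQ, rfl⟩
      · right
        rw [hQ, coord_nucleus]
    · rintro (⟨F, hF, hP⟩ | hP)
      · obtain ⟨⟨F', hF'⟩, h⟩ := π.surjective ⟨F, hF⟩
        have h1 : conjConic σ F' = F := congrArg Subtype.val h
        rw [← h1, ← coord_points] at hP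
        obtain ⟨Q, hQ, rfl⟩ := hP
        exact ⟨Q, Or.inl ⟨F', hF', hQ⟩, rfl⟩
      · exact ⟨nucleus K, Or.inr rfl, by rw [coord_nucleus, hP]⟩
  have hπmem : π ∈ inducedGroup (fam σ p q l) idC := ⟨coordC σ, hstab, hind⟩
  have hpow : ∀ (n : ℕ) F, ((π ^ n) F).1.lam = σ^[n] F.1.lam ∧ ((π ^ n) F).1.α = σ^[n] F.1.α ∧
      ((π ^ n) F).1.β = σ^[n] F.1.β := by
    intro n F
    induction n with
    | zero => exact ⟨rfl, rfl, rfl⟩
    | succ n ih =>
      rw [pow_succ', Equiv.Perm.mul_apply, hπ, Function.iterate_succ_apply',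
        Function.iterate_succ_apply', Function.iterate_succ_apply']
      exact ⟨congrArg σ ih.1, congrArg σ ih.2.1, congrArg σ ih.2.2⟩
  have h7 : π ^ 7 = 1 := by
    ext1 F
    apply Subtype.ext
    obtain ⟨h1, h2, h3⟩ := hpow 7 F
    rw [hσ7] at h1 h2 h3
    ext
    · exact h2
    · exact h3
    · exact h1
  have hne : π ≠ 1 := by
    intro h
    have hF : famConic σ p q l ![1, 0, 0] ∈ fam σ p q l :=
      (hmem _).2 ⟨![1, 0, 0], by decide, rfl⟩
    have h1 := hπ ⟨_, hF⟩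
    rw [h] at h1
    have h3 : ell σ l ![1, 0, 0] = σ (ell σ l ![1, 0, 0]) := congrArg Conic.lam h1
    rw [ell_base] at h3
    have h4 := hl
    rw [← h3, ← h3, ← h3] at h4
    apply hl0
    rw [h4]
    exact CharTwo.add_self_eq_zero _
  have : Fact (Nat.Prime 7) := ⟨by norm_num⟩
  have hord : orderOf π = 7 := orderOf_eq_prime h7 hne
  rw [← hord]
  have h8 := orderOf_dvd_natCard (⟨π, hπmem⟩ : inducedGroup (fam σ p q l) idC)
  rwa [Subgroup.orderOf_mk] at h8

end family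

section existence

variable {K : Type} [Field K] [Fintype K] [Algebra (ZMod 2) K]

/-- If the arc of the family is of Denniston type then `p = c₁ l + c₂ l²` with `c₁, c₂` fixed by
`σ`. -/
theorem fam_denniston (σ : K ≃+* K) (p q l : K)
    (hp : σ (σ (σ p)) = σ p + p) (hq : σ (σ (σ q)) = σ q + q)
    (hl : σ (σ (σ l)) = σ l + l) (hl0 : l ≠ 0)
    (htr : Algebra.trace (ZMod 2) K (p * q / l ^ 2) = 1) (hK : 32 < Fintype.card K)
    (h : IsDennistonType (arc (fam σ p q l))) :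
    ∃ c1 c2 : K, σ c1 = c1 ∧ σ c2 = c2 ∧ p = c1 * l + c2 * l ^ 2 := by
  classical
  have : CharP K 2 := charTwo
  have hmem : ∀ F, F ∈ fam σ p q l ↔ ∃ ε : Fin 3 → ZMod 2, ε ≠ 0 ∧ famConic σ p q l ε = F := by
    intro F
    simp [fam]
  obtain ⟨c1, c2, hc⟩ := linear_of_denniston (isMathon_fam σ p q l hp hq hl hl0 htr) hK h
  have hi : ∀ i : ℕ, σ^[i] p / σ^[i] l = c1 + c2 * σ^[i] l := by
    intro i
    have hne : shift^[i] ![1, 0, 0] ≠ 0 := by
      have h1 : ell σ l (shift^[i] ![1, 0, 0]) ≠ 0 := by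
        rw [ell_iter σ l hl]
        exact iter_ne_zero σ hl0 i
      intro h0
      apply h1
      rw [h0]
      simp [ell]
    have h1 := hc _ ((hmem _).2 ⟨_, hne, rfl⟩)
    simp only [famConic, ell_iter σ l hl, ell_iter σ p hp] at h1
    exact h1
  have h0 : p / l = c1 + c2 * l := hi 0
  have h1 : σ p / σ l = c1 + c2 * σ l := hi 1
  have h2 : σ (σ p) / σ (σ l) = c1 + c2 * σ (σ l) := hi 2
  have e0 : σ p / σ l = σ c1 + σ c2 * σ l := by
    rw [← map_div₀, h0, map_add, map_mul]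
  have e1 : σ (σ p) / σ (σ l) = σ c1 + σ c2 * σ (σ l) := by
    rw [← map_div₀, h1, map_add, map_mul]
  have hne : σ l ≠ l := by
    intro h
    have h4 := hl
    rw [h, h, h] at h4
    apply hl0
    rw [h4]
    exact CharTwo.add_self_eq_zero _
  have hne' : σ (σ l) - σ l ≠ 0 := by
    intro h
    exact hne (σ.injective (sub_eq_zero.1 h))
  have f2 : σ c2 = c2 := by
    have h3 : (σ c2 - c2) * (σ (σ l) - σ l) = 0 := by
      linear_combination h2 - h1 - e1 + e0
    exact sub_eq_zero.1 ((mul_eq_zero.1 h3).resolve_right hne')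
  have f1 : σ c1 = c1 := by
    rw [f2] at e0
    linear_combination h1 - e0
  refine ⟨c1, c2, f1, f2, ?_⟩
  have : p = (p / l) * l := by field_simp
  rw [this, h0]
  ring

/-- The data for the existence part. -/
theorem exists_data (m : ℕ) (hm : Module.finrank (ZMod 2) K = 7 * m) :
    ∃ (σ : K ≃+* K) (p q l : K), (∀ x, σ^[7] x = x) ∧ σ (σ (σ p)) = σ p + p ∧
      σ (σ (σ q)) = σ q + q ∧ σ (σ (σ l)) = σ l + l ∧ l ≠ 0 ∧
      Algebra.trace (ZMod 2) K (p * q / l ^ 2) = 1 ∧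
      ¬ ∃ c1 c2 : K, σ c1 = c1 ∧ σ c2 = c2 ∧ p = c1 * l + c2 * l ^ 2 := by
  classical
  have : CharP K 2 := charTwo
  have h2 : (2 : K) = 0 := CharTwo.two_eq_zero
  have hm0 : 0 < m := by
    have h1 : 0 < Module.finrank (ZMod 2) K := Module.finrank_pos
    omega
  have hcard : Fintype.card K = 2 ^ (7 * m) := by
    rw [Module.card_eq_pow_finrank (K := ZMod 2) (V := K), ZMod.card, hm]
  let σ : K ≃+* K := iterateFrobeniusEquiv K 2 m
  have hσ : ∀ x, σ x = x ^ 2 ^ m := fun x => iterateFrobeniusEquiv_def K 2 m x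
  have hσi : ∀ (i : ℕ) x, σ^[i] x = x ^ 2 ^ (i * m) := by
    intro i x
    induction i with
    | zero => simp
    | succ i ih =>
      rw [Function.iterate_succ_apply', ih, hσ, ← pow_mul, ← pow_add]
      congr 2
      ring
  have hσ7 : ∀ x, σ^[7] x = x := by
    intro x
    rw [hσi, ← hcard, FiniteField.pow_card]
  have hσ7' : ∀ x, σ (σ (σ (σ (σ (σ (σ x)))))) = x := hσ7
  -- the kernel and the image of `σ⁴ + σ² + σ + 1`
  let T : K →+ K :=
    { toFun := fun x => σ (σ (σ (σ x))) + σ (σ x) + σ x + x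
      map_zero' := by simp
      map_add' := by
        intro x y
        simp only [map_add]
        ring }
  have hT : ∀ x, T x = σ (σ (σ (σ x))) + σ (σ x) + σ x + x := fun _ => rfl
  have hker : Nat.card T.ker ≤ 2 ^ (4 * m) := by
    let P : Polynomial K := Polynomial.X ^ 2 ^ (4 * m) + (Polynomial.X ^ 2 ^ (2 * m) +
      Polynomial.X ^ 2 ^ m + Polynomial.X)
    have hlt1 : 2 ^ (2 * m) < 2 ^ (4 * m) := Nat.pow_lt_pow_right (by norm_num) (by omega)
    have hlt2 : 2 ^ m < 2 ^ (4 * m) := Nat.pow_lt_pow_right (by norm_num) (by omega)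
    have hlt3 : 1 < 2 ^ (4 * m) := Nat.one_lt_pow (by omega) (by norm_num)
    have hdegQ : (Polynomial.X ^ 2 ^ (2 * m) + Polynomial.X ^ 2 ^ m +
        Polynomial.X : Polynomial K).degree < ((2 ^ (4 * m) : ℕ) : WithBot ℕ) := by
      refine lt_of_le_of_lt (Polynomial.degree_add_le _ _) (max_lt
        (lt_of_le_of_lt (Polynomial.degree_add_le _ _) (max_lt ?_ ?_)) ?_)
      · rw [Polynomial.degree_X_pow]
        exact_mod_cast hlt1
      · rw [Polynomial.degree_X_pow]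
        exact_mod_cast hlt2
      · rw [Polynomial.degree_X]
        exact_mod_cast hlt3
    have hmonic : P.Monic := Polynomial.monic_X_pow_add (by simpa using hdegQ)
    have hnat : P.natDegree = 2 ^ (4 * m) := by
      have h1 : P.degree = ((2 ^ (4 * m) : ℕ) : WithBot ℕ) := by
        rw [Polynomial.degree_add_eq_left_of_degree_lt]
        · exact Polynomial.degree_X_pow _
        · rw [Polynomial.degree_X_pow]
          exact hdegQ
      exact Polynomial.natDegree_eq_of_degree_eq_some h1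
    have hsub : (T.ker : Set K) ⊆ (P.roots.toFinset : Set K) := by
      intro x hx
      have h1 : T x = 0 := hx
      rw [Finset.mem_coe, Multiset.mem_toFinset, Polynomial.mem_roots hmonic.ne_zero,
        Polynomial.IsRoot]
      have e1 : σ x = x ^ 2 ^ (1 * m) := hσi 1 x
      have e2 : σ (σ x) = x ^ 2 ^ (2 * m) := hσi 2 x
      have e4 : σ (σ (σ (σ x))) = x ^ 2 ^ (4 * m) := hσi 4 x
      rw [one_mul] at e1
      rw [hT, e4, e2, e1] at h1
      simp only [P, Polynomial.eval_add, Polynomial.eval_pow, Polynomial.eval_X]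
      rw [← h1]
      ring
    have h3 : Nat.card T.ker = (T.ker : Set K).ncard := rfl
    rw [h3]
    refine (Set.ncard_le_ncard hsub (Finset.finite_toSet _)).trans ?_
    rw [Set.ncard_coe_finset]
    exact (Multiset.toFinset_card_le _).trans ((Polynomial.card_roots' P).trans hnat.le)
  have hrange : 2 ^ (3 * m) ≤ Nat.card T.range := by
    have h1 := T.ker.card_mul_index
    rw [AddSubgroup.index_ker, Nat.card_eq_fintype_card (α := K), hcard] at h1
    have h3 : 2 ^ (7 * m) ≤ 2 ^ (4 * m) * Nat.card T.range := by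
      rw [← h1]
      exact Nat.mul_le_mul_right _ hker
    have h4 : 2 ^ (7 * m) = 2 ^ (4 * m) * 2 ^ (3 * m) := by
      rw [← pow_add]
      congr 1
      ring
    rw [h4] at h3
    exact Nat.le_of_mul_le_mul_left h3 (by positivity)
  let W : Set K := {x | σ (σ (σ x)) = σ x + x}
  have hTW : ∀ x, T x ∈ W := by
    intro x
    show σ (σ (σ (T x))) = σ (T x) + T x
    simp only [hT, map_add]
    rw [hσ7']
    linear_combination (-σ (σ x) - σ x) * h2
  have hWcard : 2 ^ (3 * m) ≤ W.ncard := by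
    have h1 : (T.range : Set K) ⊆ W := by
      rintro _ ⟨x, rfl⟩
      exact hTW x
    exact hrange.trans (Set.ncard_le_ncard h1 (Set.toFinite _))
  -- the fixed field
  let K0 : Set K := {x | σ x = x}
  have hK0 : K0.ncard ≤ 2 ^ m := by
    let P : Polynomial K := Polynomial.X ^ 2 ^ m - Polynomial.X
    have h1 : 1 < 2 ^ m := Nat.one_lt_pow (by omega) (by norm_num)
    have hne : P ≠ 0 := FiniteField.X_pow_card_sub_X_ne_zero K h1
    have hnat : P.natDegree = 2 ^ m := FiniteField.X_pow_card_sub_X_natDegree_eq K h1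
    have hsub : K0 ⊆ (P.roots.toFinset : Set K) := by
      intro x hx
      have h1 : σ x = x := hx
      rw [Finset.mem_coe, Multiset.mem_toFinset, Polynomial.mem_roots hne, Polynomial.IsRoot]
      simp only [P, Polynomial.eval_sub, Polynomial.eval_pow, Polynomial.eval_X]
      rw [← hσ, h1, sub_self]
    refine (Set.ncard_le_ncard hsub (Finset.finite_toSet _)).trans ?_
    rw [Set.ncard_coe_finset]
    exact (Multiset.toFinset_card_le _).trans ((Polynomial.card_roots' P).trans hnat.le)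
  -- choice of `l`
  obtain ⟨l, hlW, hl0⟩ : ∃ l ∈ W, l ≠ 0 := by
    have h1 : 1 < W.ncard := lt_of_lt_of_le (Nat.one_lt_pow (by omega) (by norm_num)) hWcard
    obtain ⟨a, ha, b, hb, hab⟩ := (Set.one_lt_ncard (Set.toFinite _)).1 h1
    by_cases h : a = 0
    · exact ⟨b, hb, fun h' => hab (by rw [h, h'])⟩
    · exact ⟨a, ha, h⟩
  -- the subspace `U`
  let U : Set K := {x | ∃ c1 c2 : K, σ c1 = c1 ∧ σ c2 = c2 ∧ x = c1 * l + c2 * l ^ 2}
  have hU : U.ncard ≤ 2 ^ (2 * m) := by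
    have h1 : U ⊆ (fun c : K × K => c.1 * l + c.2 * l ^ 2) '' (K0 ×ˢ K0) := by
      rintro x ⟨c1, c2, hc1, hc2, rfl⟩
      exact ⟨(c1, c2), ⟨hc1, hc2⟩, rfl⟩
    refine (Set.ncard_le_ncard h1 (Set.toFinite _)).trans ((Set.ncard_image_le
      (Set.toFinite _)).trans ?_)
    rw [Set.ncard_prod]
    calc K0.ncard * K0.ncard ≤ 2 ^ m * 2 ^ m := Nat.mul_le_mul hK0 hK0
      _ = 2 ^ (2 * m) := by rw [← pow_add]; congr 1; ring
  obtain ⟨w, hwW, hwU⟩ : ∃ w ∈ W, w ∉ U := by
    by_contra hcon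
    push Not at hcon
    have h1 := Set.ncard_le_ncard (show W ⊆ U from hcon) (Set.toFinite _)
    have h3 : 2 ^ (2 * m) < 2 ^ (3 * m) := Nat.pow_lt_pow_right (by norm_num) (by omega)
    omega
  have hWadd : ∀ x ∈ W, ∀ y ∈ W, x + y ∈ W := by
    intro x hx y hy
    have hx' : σ (σ (σ x)) = σ x + x := hx
    have hy' : σ (σ (σ y)) = σ y + y := hy
    show σ (σ (σ (x + y))) = σ (x + y) + (x + y)
    simp only [map_add]
    rw [hx', hy']
    ring
  have hUadd : ∀ x ∈ U, ∀ y ∈ U, x + y ∈ U := by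
    rintro x ⟨c1, c2, h1, h3, rfl⟩ y ⟨d1, d2, h4, h5, rfl⟩
    refine ⟨c1 + d1, c2 + d2, ?_, ?_, ?_⟩
    · rw [map_add, h1, h4]
    · rw [map_add, h3, h5]
    · ring
  obtain ⟨p, hpW, hpU, q, hqW, htr⟩ : ∃ p ∈ W, p ∉ U ∧ ∃ q ∈ W,
      Algebra.trace (ZMod 2) K (p * q / l ^ 2) = 1 := by
    by_contra hcon
    push Not at hcon
    have hz : ∀ p ∈ W, p ∉ U → ∀ q ∈ W, Algebra.trace (ZMod 2) K (p * q / l ^ 2) = 0 := by
      intro p hp hpU q hq
      have h1 := hcon p hp hpU q hq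
      have h3 : ∀ c : ZMod 2, c ≠ 1 → c = 0 := by decide
      exact h3 _ h1
    have hall : ∀ p ∈ W, ∀ q ∈ W, Algebra.trace (ZMod 2) K (p * q / l ^ 2) = 0 := by
      intro p hp q hq
      by_cases hpU : p ∈ U
      · have h1 : p + w ∉ U := by
          intro h
          apply hwU
          have h3 := hUadd _ h _ hpU
          have h4 : p + w + p = w := by linear_combination p * h2
          rwa [h4] at h3
        have h3 := hz _ (hWadd p hp w hwW) h1 q hq
        have h4 := hz w hwW hwU q hq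
        have h5 : (p + w) * q / l ^ 2 = p * q / l ^ 2 + w * q / l ^ 2 := by ring
        rw [h5, map_add, h4, add_zero] at h3
        exact h3
      · exact hz p hp hpU q hq
    obtain ⟨x, hx⟩ := Algebra.trace_surjective (ZMod 2) K 1
    set u := x + σ x + σ (σ x) + σ (σ (σ x)) + σ (σ (σ (σ x))) + σ (σ (σ (σ (σ x)))) +
      σ (σ (σ (σ (σ (σ x))))) with hu
    have hσu : σ u = u := by
      rw [hu]
      simp only [map_add]
      rw [hσ7']
      ring
    have htu : Algebra.trace (ZMod 2) K u = 1 := by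
      rw [hu]
      simp only [map_add, trace_ringEquiv, hx]
      decide
    have hulW : u * l ∈ W := by
      have h1 : σ (σ (σ l)) = σ l + l := hlW
      show σ (σ (σ (u * l))) = σ (u * l) + u * l
      simp only [map_mul, hσu, h1]
      ring
    have h3 := hall _ hulW l hlW
    have h4 : u * l * l / l ^ 2 = u := by field_simp
    rw [h4, htu] at h3
    exact one_ne_zero h3
  exact ⟨σ, p, q, l, hσ7, hpW, hqW, hlW, hl0, htr, hpU⟩

end existence

end Pool.Agent.Helper47.MA
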